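import Mathlib

set_option autoImplicit false

/-!
# Counting sumset configurations in a random extension of a finite set

`Cf a b U` is the set of the pairs `(X, K)` with `|X| = a`, `|K| = b`, `0 ∈ X` and `X + K ⊆ U`.
-/

namespace Run7.h993.Chg

open Finset

/-- the pairs `(X, K)` with `|X| = a`, `|K| = b`, `0 ∈ X` and `X + K ⊆ U` -/
def Cf (a b : ℕ) (U : Finset ℕ) : Finset (Finset ℕ × Finset ℕ) :=
  (((range (U.sup id + 1)).powersetCard a) ×ˢ (U.powersetCard b)).filter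
    (fun p => 0 ∈ p.1 ∧ ∀ x ∈ p.1, ∀ k ∈ p.2, x + k ∈ U)

theorem mem_Cf {a b : ℕ} (hb : 1 ≤ b) {U : Finset ℕ} {p : Finset ℕ × Finset ℕ} :
    p ∈ Cf a b U ↔ p.1.card = a ∧ p.2.card = b ∧ 0 ∈ p.1 ∧
      ∀ x ∈ p.1, ∀ k ∈ p.2, x + k ∈ U := by
  simp only [Cf, mem_filter, mem_product, mem_powersetCard]
  constructor
  · rintro ⟨⟨⟨_, h1⟩, ⟨_, h2⟩⟩, h3, h4⟩
    exact ⟨h1, h2, h3, h4⟩
  · rintro ⟨h1, h2, h3, h4⟩
    have hK : p.2.Nonempty := card_pos.1 (by omega)
    obtain ⟨k, hk⟩ := hK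
    refine ⟨⟨⟨?_, h1⟩, ⟨?_, h2⟩⟩, h3, h4⟩
    · intro x hx
      rw [mem_range]
      have := le_sup (f := id) (h4 x hx k hk)
      simp only [id] at this
      omega
    · intro k hk
      simpa using h4 0 h3 k hk

theorem choose_ineq (n M t : ℕ) (hM : M ≤ n) (ht : t ≤ M) :
    (n - t).choose (M - t) * n ^ t ≤ n.choose M * M ^ t := by
  induction t with
  | zero => simp
  | succ t ih =>
    have ih := ih (by omega)
    have e : (n - t) * (n - (t + 1)).choose (M - (t + 1)) = (n - t).choose (M - t) * (M - t) := by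
      have h1 : n - t = (n - (t + 1)) + 1 := by omega
      have h2 : M - t = (M - (t + 1)) + 1 := by omega
      rw [h1, h2]
      exact Nat.add_one_mul_choose_eq _ _
    have f : (M - t) * n ≤ M * (n - t) := by
      rw [Nat.sub_mul, Nat.mul_sub]
      have := Nat.mul_le_mul_left t hM
      rw [mul_comm t M] at this
      omega
    have hpos : 0 < n - t := by omega
    apply Nat.le_of_mul_le_mul_left _ hpos
    calc (n - t) * ((n - (t + 1)).choose (M - (t + 1)) * n ^ (t + 1))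
        = ((n - t).choose (M - t) * n ^ t) * ((M - t) * n) := by
          rw [← mul_assoc, e, pow_succ]; ring
      _ ≤ (n.choose M * M ^ t) * (M * (n - t)) := Nat.mul_le_mul ih f
      _ = (n - t) * (n.choose M * M ^ (t + 1)) := by ring

theorem card_super (B T : Finset ℕ) (hT : T ⊆ B) (M : ℕ) (hM : M ≤ B.card) :
    ((powersetCard M B).filter (fun A => T ⊆ A)).card * B.card ^ T.card ≤
      (powersetCard M B).card * M ^ T.card := by
  by_cases ht : T.card ≤ M
  · refine le_trans (Nat.mul_le_mul_right _ ?_) (le_trans (choose_ineq B.card M T.card hM ht) ?_)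
    · have h1 : ((powersetCard M B).filter (fun A => T ⊆ A)).card ≤
          (powersetCard (M - T.card) (B \ T)).card := by
        apply card_le_card_of_injOn (fun A => A \ T)
        · intro A hA
          simp only [coe_filter, Set.mem_ofPred_eq, mem_powersetCard] at hA
          obtain ⟨⟨h1, h2⟩, h3⟩ := hA
          simp only [mem_coe, mem_powersetCard]
          exact ⟨sdiff_subset_sdiff h1 le_rfl, by rw [card_sdiff_of_subset h3, h2]⟩
        · intro A hA A' hA' h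
          simp only [coe_filter, Set.mem_ofPred_eq, mem_powersetCard] at hA hA'
          rw [← sdiff_union_of_subset hA.2, ← sdiff_union_of_subset hA'.2]
          simp only at h
          rw [h]
      rw [card_powersetCard, card_sdiff_of_subset hT] at h1
      exact h1
    · rw [card_powersetCard]
  · have : (powersetCard M B).filter (fun A => T ⊆ A) = ∅ := by
      rw [filter_eq_empty_iff]
      intro A hA hTA
      have := card_le_card hTA
      rw [(mem_powersetCard.1 hA).2] at this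
      exact ht this
    rw [this]
    simp

/-- the elements of `X + K` in `B` -/
def Tp (B : Finset ℕ) (p : Finset ℕ × Finset ℕ) : Finset ℕ :=
  ((p.1 ×ˢ p.2).image (fun z => z.1 + z.2)).filter (fun z => z ∈ B)

theorem Tp_subset (B : Finset ℕ) (p : Finset ℕ × Finset ℕ) : Tp B p ⊆ B := by
  intro z hz
  exact (mem_filter.1 hz).2

theorem mem_Tp {B : Finset ℕ} {p : Finset ℕ × Finset ℕ} {z : ℕ} :
    z ∈ Tp B p ↔ (∃ x ∈ p.1, ∃ k ∈ p.2, x + k = z) ∧ z ∈ B := by
  simp only [Tp, mem_filter, mem_image, mem_product, Prod.exists]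
  constructor
  · rintro ⟨⟨x, k, ⟨h1, h2⟩, h3⟩, h4⟩
    exact ⟨⟨x, h1, k, h2, h3⟩, h4⟩
  · rintro ⟨⟨x, h1, k, h2, h3⟩, h4⟩
    exact ⟨⟨x, k, ⟨h1, h2⟩, h3⟩, h4⟩

theorem Cf_union_iff {a b : ℕ} (hb : 1 ≤ b) {U B A : Finset ℕ} (hd : Disjoint U B) (hA : A ⊆ B)
    {p : Finset ℕ × Finset ℕ} :
    p ∈ Cf a b (U ∪ A) ↔ p ∈ Cf a b (U ∪ B) ∧ Tp B p ⊆ A := by
  rw [mem_Cf hb, mem_Cf hb]
  constructor
  · rintro ⟨h1, h2, h3, h4⟩
    refine ⟨⟨h1, h2, h3, fun x hx k hk => union_subset_union_right hA (h4 x hx k hk)⟩, ?_⟩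
    intro z hz
    obtain ⟨⟨x, hx, k, hk, rfl⟩, hzB⟩ := mem_Tp.1 hz
    rcases mem_union.1 (h4 x hx k hk) with h | h
    · exact absurd hzB (disjoint_left.1 hd h)
    · exact h
  · rintro ⟨⟨h1, h2, h3, h4⟩, h5⟩
    refine ⟨h1, h2, h3, fun x hx k hk => ?_⟩
    rcases mem_union.1 (h4 x hx k hk) with h | h
    · exact mem_union_left _ h
    · exact mem_union_right _ (h5 (mem_Tp.2 ⟨⟨x, hx, k, hk, rfl⟩, h⟩))

/-- the average number of configurations -/
theorem avg {a b : ℕ} (hb : 1 ≤ b) {U B : Finset ℕ} (hd : Disjoint U B) (M : ℕ)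
    (hM : M ≤ B.card) (hB : 0 < B.card) :
    ∑ A ∈ powersetCard M B, ((Cf a b (U ∪ A)).card : ℝ) ≤
      ((powersetCard M B).card : ℝ) *
        ∑ p ∈ Cf a b (U ∪ B), ((M : ℝ) / B.card) ^ (Tp B p).card := by
  have h1 : ∀ A ∈ powersetCard M B, ((Cf a b (U ∪ A)).card : ℝ) =
      ∑ p ∈ Cf a b (U ∪ B), if Tp B p ⊆ A then (1 : ℝ) else 0 := by
    intro A hA
    have hA' := (mem_powersetCard.1 hA).1
    have : Cf a b (U ∪ A) = (Cf a b (U ∪ B)).filter (fun p => Tp B p ⊆ A) := by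
      ext p
      rw [mem_filter, Cf_union_iff hb hd hA']
    rw [this, card_filter]
    push_cast
    rfl
  rw [sum_congr rfl h1, sum_comm, mul_sum]
  apply sum_le_sum
  intro p _
  have h2 : ∑ A ∈ powersetCard M B, (if Tp B p ⊆ A then (1 : ℝ) else 0) =
      (((powersetCard M B).filter (fun A => Tp B p ⊆ A)).card : ℝ) := by
    rw [card_filter]
    push_cast
    rfl
  rw [h2]
  have h3 := card_super B (Tp B p) (Tp_subset B p) M hM
  have h4 : ((((powersetCard M B).filter (fun A => Tp B p ⊆ A)).card : ℝ)) *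
      (B.card : ℝ) ^ (Tp B p).card ≤ ((powersetCard M B).card : ℝ) * (M : ℝ) ^ (Tp B p).card := by
    exact_mod_cast h3
  have hB' : (0 : ℝ) < (B.card : ℝ) ^ (Tp B p).card := by positivity
  rw [div_pow, mul_div_assoc', le_div_iff₀ hB']
  exact h4

/-- the least element of `K` -/
noncomputable def k0 (K : Finset ℕ) : ℕ := sInf (K : Set ℕ)

theorem k0_mem {K : Finset ℕ} (h : K.Nonempty) : k0 K ∈ K := by
  have := Nat.sInf_mem (s := (K : Set ℕ)) h
  exact_mod_cast this

theorem k0_le {K : Finset ℕ} {k : ℕ} (h : k ∈ K) : k0 K ≤ k := Nat.sInf_le (by exact_mod_cast h)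

/-- lower part of `X` -/
noncomputable def lX (U : Finset ℕ) (p : Finset ℕ × Finset ℕ) : Finset ℕ :=
  p.1.filter (fun x => x + k0 p.2 ∈ U)

/-- lower part of `K` -/
def lK (U : Finset ℕ) (p : Finset ℕ × Finset ℕ) : Finset ℕ := p.2.filter (fun k => k ∈ U)

section sep

variable {U B : Finset ℕ} {N : ℕ} (hN : 0 < N) (hU : ∀ u ∈ U, 4 * u ≤ N) (hBN : ∀ b ∈ B, N ≤ b)
  (hfree : ThreeAPFree ((U ∪ B : Finset ℕ) : Set ℕ))

include hfree in
theorem sum_inj {p : Finset ℕ × Finset ℕ} (hp : ∀ x ∈ p.1, ∀ k ∈ p.2, x + k ∈ U ∪ B) :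
    Set.InjOn (fun z : ℕ × ℕ => z.1 + z.2) ((p.1 ×ˢ p.2 : Finset (ℕ × ℕ)) : Set (ℕ × ℕ)) := by
  rintro ⟨x, k⟩ hz ⟨y, l⟩ hw h
  simp only [coe_product, Set.mem_prod, mem_coe] at hz hw h
  have h1 := hfree (a := y + k) (by exact_mod_cast hp y hw.1 k hz.2) (b := x + k)
    (by exact_mod_cast hp x hz.1 k hz.2) (c := x + l) (by exact_mod_cast hp x hz.1 l hw.2)
    (by omega)
  have h2 : y = x := by omega
  subst h2
  have h3 : k = l := by omega
  rw [h3]

include hN hU hBN in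
theorem low_iff {p : Finset ℕ × Finset ℕ} (h0 : 0 ∈ p.1)
    (hp : ∀ x ∈ p.1, ∀ k ∈ p.2, x + k ∈ U ∪ B) {x k : ℕ} (hx : x ∈ p.1)
    (hk : k ∈ p.2) : x + k ∈ U ↔ x ∈ lX U p ∧ k ∈ lK U p := by
  unfold lX lK
  rw [mem_filter, mem_filter]
  have hk0 := k0_mem (K := p.2) ⟨k, hk⟩
  have hk0' := k0_le hk
  constructor
  · intro h
    have h1 := hU _ h
    have h2 : x + k0 p.2 ∈ U := by
      rcases mem_union.1 (hp x hx _ hk0) with h3 | h3
      · exact h3
      · have := hBN _ h3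
        omega
    have h4 : k ∈ U := by
      have h5 := hp 0 h0 k hk
      rw [zero_add] at h5
      rcases mem_union.1 h5 with h3 | h3
      · exact h3
      · have := hBN _ h3
        omega
    exact ⟨⟨hx, h2⟩, ⟨hk, h4⟩⟩
  · rintro ⟨⟨_, h1⟩, ⟨_, h2⟩⟩
    have h3 := hU _ h1
    have h4 := hU _ h2
    rcases mem_union.1 (hp x hx k hk) with h5 | h5
    · exact h5
    · have := hBN _ h5
      omega

include hN hU hBN hfree in
theorem card_Tp {a b : ℕ} {p : Finset ℕ × Finset ℕ} (ha : p.1.card = a) (hb : p.2.card = b)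
    (h0 : 0 ∈ p.1) (hp : ∀ x ∈ p.1, ∀ k ∈ p.2, x + k ∈ U ∪ B) :
    (Tp B p).card = a * b - (lX U p).card * (lK U p).card := by
  have h1 : Tp B p = ((p.1 ×ˢ p.2) \ (lX U p ×ˢ lK U p)).image (fun z => z.1 + z.2) := by
    ext z
    rw [mem_Tp, mem_image]
    constructor
    · rintro ⟨⟨x, hx, k, hk, rfl⟩, hz⟩
      refine ⟨(x, k), ?_, rfl⟩
      rw [mem_sdiff, mem_product, mem_product]
      refine ⟨⟨hx, hk⟩, fun h => ?_⟩
      have h2 := (low_iff hN hU hBN h0 hp hx hk).2 h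
      have h3 := hU _ h2
      have h4 := hBN _ hz
      omega
    · rintro ⟨⟨x, k⟩, hz, rfl⟩
      rw [mem_sdiff, mem_product, mem_product] at hz
      obtain ⟨⟨hx, hk⟩, h⟩ := hz
      refine ⟨⟨x, hx, k, hk, rfl⟩, ?_⟩
      rcases mem_union.1 (hp x hx k hk) with h5 | h5
      · exact absurd ((low_iff hN hU hBN h0 hp hx hk).1 h5) h
      · exact h5
  rw [h1, card_image_of_injOn]
  · rw [card_sdiff_of_subset, card_product, card_product, ha, hb]
    exact product_subset_product (filter_subset _ _) (filter_subset _ _)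
  · exact (sum_inj hfree hp).mono (by
      intro z hz
      have := (mem_sdiff.1 (mem_coe.1 hz)).1
      exact mem_coe.2 this)

end sep

end Run7.h993.Chg
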