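import Pool.Agent.Run7.h993.ChA

set_option autoImplicit false

/-!
# The sum over the configurations by types
-/

namespace Run7.h993.Chg

open Finset

section sep

variable {U B : Finset ℕ} {N : ℕ} (hN : 0 < N) (hU : ∀ u ∈ U, 4 * u ≤ N) (hBN : ∀ b ∈ B, N ≤ b)
  (hfree : ThreeAPFree ((U ∪ B : Finset ℕ) : Set ℕ))

theorem k0_lK {p : Finset ℕ × Finset ℕ} (hk : p.2.Nonempty) (h : k0 p.2 ∈ U) :
    k0 (lK U p) = k0 p.2 := by
  have h1 : k0 p.2 ∈ lK U p := mem_filter.2 ⟨k0_mem hk, h⟩
  apply le_antisymm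
  · exact k0_le h1
  · exact k0_le (mem_filter.1 (k0_mem ⟨_, h1⟩)).1

include hN hU hBN in
/-- configurations whose least element is in `B` -/
theorem card_top {a b : ℕ} (hb : 1 ≤ b) :
    ((Cf a b (U ∪ B)).filter (fun p => ¬ k0 p.2 ∈ U)).card ≤ B.card ^ (b + (a - 1)) := by
  have h1 : ((Cf a b (U ∪ B)).filter (fun p => ¬ k0 p.2 ∈ U)).card ≤
      (powersetCard b B ×ˢ powersetCard (a - 1) B).card := by
    have key : ∀ p ∈ (Cf a b (U ∪ B)).filter (fun p => ¬ k0 p.2 ∈ U),
        p.1.card = a ∧ p.2.card = b ∧ 0 ∈ p.1 ∧ (∀ k ∈ p.2, k ∈ B) ∧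
        ∀ x ∈ p.1, x + k0 p.2 ∈ B := by
      intro p hp
      rw [mem_filter, mem_Cf hb] at hp
      obtain ⟨⟨h1, h2, h3, h4⟩, h5⟩ := hp
      have hne : p.2.Nonempty := card_pos.1 (by omega)
      have hk0 := k0_mem hne
      have hk0B : k0 p.2 ∈ B := by
        have := h4 0 h3 _ hk0
        rw [zero_add] at this
        rcases mem_union.1 this with h | h
        · exact absurd h h5
        · exact h
      have hk0N := hBN _ hk0B
      refine ⟨h1, h2, h3, ?_, ?_⟩
      · intro k hk
        have := h4 0 h3 k hk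
        rw [zero_add] at this
        rcases mem_union.1 this with h | h
        · have := hU _ h
          have := k0_le hk
          omega
        · exact h
      · intro x hx
        rcases mem_union.1 (h4 x hx _ hk0) with h | h
        · have := hU _ h
          omega
        · exact h
    apply card_le_card_of_injOn (fun p => (p.2, (p.1.erase 0).image (fun x => x + k0 p.2)))
    · intro p hp
      obtain ⟨h1, h2, h3, h4, h5⟩ := key p hp
      simp only [coe_product, Set.mem_prod, mem_coe, mem_powersetCard]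
      refine ⟨⟨h4, h2⟩, ?_, ?_⟩
      · intro z hz
        obtain ⟨x, hx, rfl⟩ := mem_image.1 hz
        exact h5 x (mem_of_mem_erase hx)
      · rw [card_image_of_injective _ (add_left_injective _), card_erase_of_mem h3, h1]
    · intro p hp q hq h
      obtain ⟨h1, h2, h3, h4, h5⟩ := key p hp
      obtain ⟨g1, g2, g3, g4, g5⟩ := key q hq
      simp only [Prod.mk.injEq] at h
      obtain ⟨e1, e2⟩ := h
      rw [e1] at e2
      have e3 := image_injective (add_left_injective (k0 q.2)) e2
      have e4 : p.1 = q.1 := by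
        rw [← insert_erase h3, ← insert_erase g3, e3]
      exact Prod.ext e4 e1
  refine h1.trans ?_
  rw [card_product, card_powersetCard, card_powersetCard, pow_add]
  exact Nat.mul_le_mul (Nat.choose_le_pow _ _) (Nat.choose_le_pow _ _)

include hN hU hBN in
/-- configurations with a given lower part -/
theorem card_fiber {a b : ℕ} (hb : 1 ≤ b) (q : ℕ × ℕ) (hq : 1 ≤ q.2) :
    (((Cf a b (U ∪ B)).filter (fun p => k0 p.2 ∈ U)).filter
      (fun p => ((lX U p).card, (lK U p).card) = q)).card ≤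
      (Cf q.1 q.2 U).card * B.card ^ ((a - q.1) + (b - q.2)) := by
  have h1 : (((Cf a b (U ∪ B)).filter (fun p => k0 p.2 ∈ U)).filter
      (fun p => ((lX U p).card, (lK U p).card) = q)).card ≤
      (Cf q.1 q.2 U ×ˢ (powersetCard (a - q.1) B ×ˢ powersetCard (b - q.2) B)).card := by
    have key : ∀ p ∈ ((Cf a b (U ∪ B)).filter (fun p => k0 p.2 ∈ U)).filter
        (fun p => ((lX U p).card, (lK U p).card) = q),
        p.1.card = a ∧ p.2.card = b ∧ 0 ∈ p.1 ∧ (∀ x ∈ p.1, ∀ k ∈ p.2, x + k ∈ U ∪ B) ∧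
        k0 p.2 ∈ U ∧ (lX U p).card = q.1 ∧ (lK U p).card = q.2 ∧ p.2.Nonempty := by
      intro p hp
      rw [mem_filter, mem_filter, mem_Cf hb] at hp
      obtain ⟨⟨⟨h1, h2, h3, h4⟩, h5⟩, h6⟩ := hp
      have hne : p.2.Nonempty := card_pos.1 (by omega)
      rw [← h6]
      exact ⟨h1, h2, h3, h4, h5, rfl, rfl, hne⟩
    apply card_le_card_of_injOn (fun p => ((lX U p, lK U p),
      ((p.1 \ lX U p).image (fun x => x + k0 p.2), p.2 \ lK U p)))
    · intro p hp
      obtain ⟨h1, h2, h3, h4, h5, h6, h7, hne⟩ := key p hp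
      have hk0 := k0_mem hne
      have hlX : lX U p ⊆ p.1 := filter_subset _ _
      have hlK : lK U p ⊆ p.2 := filter_subset _ _
      simp only [coe_product, Set.mem_prod, mem_coe, mem_powersetCard]
      refine ⟨?_, ⟨?_, ?_⟩, ?_, ?_⟩
      · rw [mem_Cf hq]
        refine ⟨h6, h7, ?_, ?_⟩
        · exact mem_filter.2 ⟨h3, by rwa [zero_add]⟩
        · intro x hx k hk
          exact (low_iff hN hU hBN h3 h4 (hlX hx) (hlK hk)).2 ⟨hx, hk⟩
      · intro z hz
        obtain ⟨x, hx, rfl⟩ := mem_image.1 hz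
        obtain ⟨hx1, hx2⟩ := mem_sdiff.1 hx
        rcases mem_union.1 (h4 x hx1 _ hk0) with h | h
        · exact absurd (mem_filter.2 ⟨hx1, h⟩) hx2
        · exact h
      · rw [card_image_of_injective _ (add_left_injective _), card_sdiff_of_subset hlX, h1, h6]
      · intro k hk
        obtain ⟨hk1, hk2⟩ := mem_sdiff.1 hk
        have := h4 0 h3 k hk1
        rw [zero_add] at this
        rcases mem_union.1 this with h | h
        · exact absurd (mem_filter.2 ⟨hk1, h⟩) hk2
        · exact h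
      · rw [card_sdiff_of_subset hlK, h2, h7]
    · intro p hp q' hq' h
      obtain ⟨h1, h2, h3, h4, h5, h6, h7, hne⟩ := key p hp
      obtain ⟨g1, g2, g3, g4, g5, g6, g7, gne⟩ := key q' hq'
      simp only [Prod.mk.injEq] at h
      obtain ⟨⟨e1, e2⟩, e3, e4⟩ := h
      have e5 : k0 p.2 = k0 q'.2 := by rw [← k0_lK hne h5, ← k0_lK gne g5, e2]
      rw [e5] at e3
      have e6 := image_injective (add_left_injective (k0 q'.2)) e3
      have hlX : lX U p ⊆ p.1 := filter_subset _ _
      have hlK : lK U p ⊆ p.2 := filter_subset _ _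
      have glX : lX U q' ⊆ q'.1 := filter_subset _ _
      have glK : lK U q' ⊆ q'.2 := filter_subset _ _
      refine Prod.ext ?_ ?_
      · rw [← sdiff_union_of_subset hlX, ← sdiff_union_of_subset glX, e6, e1]
      · rw [← sdiff_union_of_subset hlK, ← sdiff_union_of_subset glK, e4, e2]
  refine h1.trans ?_
  rw [card_product, card_product, card_powersetCard, card_powersetCard, pow_add]
  exact Nat.mul_le_mul le_rfl (Nat.mul_le_mul (Nat.choose_le_pow _ _) (Nat.choose_le_pow _ _))

include hN hU hBN hfree in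
/-- the weighted number of the configurations -/
theorem type_sum {a b : ℕ} (hb : 1 ≤ b) (ρ : ℝ) (hρ : 0 ≤ ρ) :
    ∑ p ∈ Cf a b (U ∪ B), ρ ^ (Tp B p).card ≤
      (B.card : ℝ) ^ (b + (a - 1)) * ρ ^ (a * b) +
      ∑ q ∈ Icc 1 a ×ˢ Icc 1 b, ((Cf q.1 q.2 U).card : ℝ) *
        (B.card : ℝ) ^ ((a - q.1) + (b - q.2)) * ρ ^ (a * b - q.1 * q.2) := by
  rw [← sum_filter_add_sum_filter_not (Cf a b (U ∪ B)) (fun p => k0 p.2 ∈ U), add_comm]
  apply add_le_add
  · have h1 : ∀ p ∈ (Cf a b (U ∪ B)).filter (fun p => ¬ k0 p.2 ∈ U),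
        ρ ^ (Tp B p).card = ρ ^ (a * b) := by
      intro p hp
      rw [mem_filter, mem_Cf hb] at hp
      obtain ⟨⟨h1, h2, h3, h4⟩, h5⟩ := hp
      rw [card_Tp hN hU hBN hfree h1 h2 h3 h4]
      have hne : p.2.Nonempty := card_pos.1 (by omega)
      have hk0 := k0_mem hne
      have hk0B : k0 p.2 ∈ B := by
        have := h4 0 h3 _ hk0
        rw [zero_add] at this
        rcases mem_union.1 this with h | h
        · exact absurd h h5
        · exact h
      have hk0N := hBN _ hk0B
      have : lK U p = ∅ := by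
        rw [lK, filter_eq_empty_iff]
        intro k hk h
        have h6 := hU _ h
        have h7 := k0_le hk
        omega
      rw [this]
      simp
    rw [sum_congr rfl h1, sum_const, nsmul_eq_mul]
    apply mul_le_mul_of_nonneg_right _ (by positivity)
    have := card_top hN hU hBN (a := a) hb
    exact_mod_cast this
  · have hmaps : ∀ p ∈ (Cf a b (U ∪ B)).filter (fun p => k0 p.2 ∈ U),
        ((lX U p).card, (lK U p).card) ∈ Icc 1 a ×ˢ Icc 1 b := by
      intro p hp
      rw [mem_filter, mem_Cf hb] at hp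
      obtain ⟨⟨h1, h2, h3, h4⟩, h5⟩ := hp
      have hne : p.2.Nonempty := card_pos.1 (by omega)
      rw [mem_product, mem_Icc, mem_Icc]
      refine ⟨⟨?_, ?_⟩, ?_, ?_⟩
      · exact card_pos.2 ⟨0, mem_filter.2 ⟨h3, by rwa [zero_add]⟩⟩
      · rw [← h1]
        exact card_le_card (filter_subset _ _)
      · exact card_pos.2 ⟨k0 p.2, mem_filter.2 ⟨k0_mem hne, h5⟩⟩
      · rw [← h2]
        exact card_le_card (filter_subset _ _)
    rw [← sum_fiberwise_of_maps_to hmaps]
    apply sum_le_sum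
    intro q hq
    rw [mem_product, mem_Icc, mem_Icc] at hq
    have h1 : ∀ p ∈ ((Cf a b (U ∪ B)).filter (fun p => k0 p.2 ∈ U)).filter
        (fun p => ((lX U p).card, (lK U p).card) = q),
        ρ ^ (Tp B p).card = ρ ^ (a * b - q.1 * q.2) := by
      intro p hp
      rw [mem_filter, mem_filter, mem_Cf hb] at hp
      obtain ⟨⟨⟨h1, h2, h3, h4⟩, h5⟩, h6⟩ := hp
      rw [card_Tp hN hU hBN hfree h1 h2 h3 h4, ← h6]
    rw [sum_congr rfl h1, sum_const, nsmul_eq_mul]
    apply mul_le_mul_of_nonneg_right _ (by positivity)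
    have := card_fiber hN hU hBN (a := a) hb q hq.2.1
    exact_mod_cast this

end sep

end Run7.h993.Chg
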