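import Pool.Agent.Run7.h993.ChB

set_option autoImplicit false

/-!
# The extension step
-/

namespace Run7.h993.Chg

open Finset

/-- the exponent `α = (h-1)(g-1)/(hg-1)` -/
noncomputable def al (h g : ℕ) : ℝ := (((h : ℝ) - 1) * ((g : ℝ) - 1)) / ((h : ℝ) * g - 1)

/-- the exponent of the number of configurations -/
noncomputable def ex (h g a b : ℕ) : ℝ := al h g * (a * b) - ((a : ℝ) - 1) * ((b : ℝ) - 1)

theorem al_le_one {h g : ℕ} (hh : 2 ≤ h) (hg : 2 ≤ g) : al h g ≤ 1 := by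
  unfold al
  have h1 : (2 : ℝ) ≤ h := by exact_mod_cast hh
  have h2 : (2 : ℝ) ≤ g := by exact_mod_cast hg
  rw [div_le_one (by nlinarith)]
  nlinarith

theorem al_pos {h g : ℕ} (hh : 2 ≤ h) (hg : 2 ≤ g) : 0 < al h g := by
  unfold al
  have h1 : (2 : ℝ) ≤ h := by exact_mod_cast hh
  have h2 : (2 : ℝ) ≤ g := by exact_mod_cast hg
  apply div_pos <;> nlinarith

theorem ex_top {h g : ℕ} (hh : 2 ≤ h) (hg : 2 ≤ g) : ex h g h g = al h g := by
  unfold ex al
  have h1 : (2 : ℝ) ≤ h := by exact_mod_cast hh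
  have h2 : (2 : ℝ) ≤ g := by exact_mod_cast hg
  have h3 : (h : ℝ) * g - 1 ≠ 0 := by nlinarith
  field_simp
  ring

theorem ex_nonneg {h g a b : ℕ} (hh : 2 ≤ h) (hg : 2 ≤ g) (ha : 1 ≤ a) (ha' : a ≤ h)
    (hb : 1 ≤ b) (hb' : b ≤ g) : 0 ≤ ex h g a b := by
  unfold ex al
  have h1 : (2 : ℝ) ≤ h := by exact_mod_cast hh
  have h2 : (2 : ℝ) ≤ g := by exact_mod_cast hg
  have h3 : (1 : ℝ) ≤ a := by exact_mod_cast ha
  have h4 : (1 : ℝ) ≤ b := by exact_mod_cast hb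
  have h5 : (a : ℝ) ≤ h := by exact_mod_cast ha'
  have h6 : (b : ℝ) ≤ g := by exact_mod_cast hb'
  have h7 : 0 < (h : ℝ) * g - 1 := by nlinarith
  rw [sub_nonneg, div_mul_eq_mul_div, le_div_iff₀ h7]
  -- (a-1)(b-1)(hg-1) ≤ (h-1)(g-1) a b
  have e1 : ((a : ℝ) - 1) * h ≤ ((h : ℝ) - 1) * a := by nlinarith
  have e2 : ((b : ℝ) - 1) * g ≤ ((g : ℝ) - 1) * b := by nlinarith
  have e3 : ((a : ℝ) - 1) * h * (((b : ℝ) - 1) * g) ≤ ((h : ℝ) - 1) * a * (((g : ℝ) - 1) * b) :=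
    mul_le_mul e1 e2 (by apply mul_nonneg <;> linarith) (by apply mul_nonneg <;> linarith)
  have e4 : 0 ≤ ((a : ℝ) - 1) * ((b : ℝ) - 1) := by apply mul_nonneg <;> linarith
  nlinarith

theorem Cf_mono {a b : ℕ} (hb : 1 ≤ b) {U V : Finset ℕ} (h : U ⊆ V) : Cf a b U ⊆ Cf a b V := by
  intro p hp
  rw [mem_Cf hb] at hp ⊢
  exact ⟨hp.1, hp.2.1, hp.2.2.1, fun x hx k hk => h (hp.2.2.2 x hx k hk)⟩

/-- the basic estimate of one type -/
theorem one_type {h g : ℕ} (N n M : ℕ) (hN : 0 < N) (β q : ℝ) (hβ : 0 < β)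
    (hn : β * N ≤ n) (hq : 0 < q) (hM : (M : ℝ) ≤ q * (N : ℝ) ^ al h g) (s t : ℕ) (hst : s ≤ t) :
    (n : ℝ) ^ s * ((M : ℝ) / n) ^ t ≤
      (q ^ t / β ^ (t - s)) * (N : ℝ) ^ (al h g * t - ((t - s : ℕ) : ℝ)) := by
  have hN' : (0 : ℝ) < N := by exact_mod_cast hN
  have hn0 : (0 : ℝ) < n := lt_of_lt_of_le (by positivity) hn
  have e1 : (n : ℝ) ^ s * ((M : ℝ) / n) ^ t = (M : ℝ) ^ t / (n : ℝ) ^ (t - s) := by
    have h1 : (n : ℝ) ^ t = (n : ℝ) ^ s * (n : ℝ) ^ (t - s) := by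
      rw [← pow_add]; congr 1; omega
    rw [div_pow, h1]
    field_simp
  rw [e1]
  have e2 : (M : ℝ) ^ t ≤ (q * (N : ℝ) ^ al h g) ^ t := by
    apply pow_le_pow_left₀ (by positivity) hM
  have e3 : (β * N) ^ (t - s) ≤ (n : ℝ) ^ (t - s) := by
    apply pow_le_pow_left₀ (by positivity) hn
  calc (M : ℝ) ^ t / (n : ℝ) ^ (t - s) ≤ (q * (N : ℝ) ^ al h g) ^ t / (β * N) ^ (t - s) := by
        apply div_le_div₀ (by positivity) e2 (by positivity) e3
    _ = (q ^ t / β ^ (t - s)) * (N : ℝ) ^ (al h g * t - ((t - s : ℕ) : ℝ)) := by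
        rw [mul_pow, mul_pow, Real.rpow_sub hN', Real.rpow_natCast, Real.rpow_mul hN'.le,
          Real.rpow_natCast]
        field_simp

theorem coef_le_one {β q : ℝ} {m : ℕ} (hβ : 0 < β) (hβ1 : β ≤ 1) (hq : 0 < q)
    (hqβ : q ≤ β ^ m) (s t : ℕ) (hst : s ≤ t) (ht : t ≤ m) : q ^ t / β ^ (t - s) ≤ 1 := by
  rw [div_le_one (by positivity)]
  rcases Nat.eq_zero_or_pos t with h | h
  · subst h
    simp
  · have hq1 : q ≤ 1 := hqβ.trans (pow_le_one₀ hβ.le hβ1)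
    calc q ^ t ≤ q ^ 1 := pow_le_pow_of_le_one hq.le hq1 h
      _ = q := pow_one q
      _ ≤ β ^ m := hqβ
      _ ≤ β ^ (t - s) := pow_le_pow_of_le_one hβ.le hβ1 (by omega)

theorem coef_le {β q : ℝ} {m : ℕ} (hβ : 0 < β) (hβ1 : β ≤ 1) (hq : 0 < q)
    (hqβ : q ≤ β ^ m) (s t : ℕ) (ht : t ≤ m) (ht2 : 2 ≤ t) :
    q ^ t / β ^ (t - s) ≤ q / β ^ m * q := by
  have hq1 : q ≤ 1 := hqβ.trans (pow_le_one₀ hβ.le hβ1)
  calc q ^ t / β ^ (t - s) ≤ q ^ 2 / β ^ m := by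
        apply div_le_div₀ (by positivity) (pow_le_pow_of_le_one hq.le hq1 ht2) (by positivity)
        exact pow_le_pow_of_le_one hβ.le hβ1 (by omega)
    _ = q / β ^ m * q := by ring

theorem nat_mul_sub {a b a' b' : ℕ} (ha' : 1 ≤ a') (hb' : 1 ≤ b') (ha : a' ≤ a) (hb : b' ≤ b) :
    (a - a') + (b - b') ≤ a * b - a' * b' := by
  obtain ⟨c, rfl⟩ := Nat.exists_eq_add_of_le ha
  obtain ⟨d, rfl⟩ := Nat.exists_eq_add_of_le hb
  have : (a' + c) * (b' + d) = a' * b' + (c * b' + a' * d + c * d) := by ring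
  rw [this]
  simp only [Nat.add_sub_cancel_left]
  nlinarith [Nat.mul_le_mul_left c hb', Nat.mul_le_mul_right d ha', Nat.zero_le (c * d)]

section est

variable {h g N : ℕ} {U B : Finset ℕ} {C β q : ℝ} {M : ℕ}
  (hh : 2 ≤ h) (hg : 2 ≤ g) (hN : 0 < N) (hβ : 0 < β) (hβ1 : β ≤ 1) (hq : 0 < q)
  (hqβ : q ≤ β ^ (h * g)) (hC : 0 ≤ C) (hn : β * N ≤ B.card)
  (hM : (M : ℝ) ≤ q * (N : ℝ) ^ al h g)
  (hZ : ∀ a b, 1 ≤ a → a ≤ h → 1 ≤ b → b ≤ g → ((Cf a b U).card : ℝ) ≤ C * (N : ℝ) ^ ex h g a b)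

include hN hβ hβ1 hq hqβ hC hn hM hZ in
theorem est1 {a b : ℕ} (ha : 1 ≤ a) (ha' : a ≤ h) (hb : 1 ≤ b) (hb' : b ≤ g) :
    (B.card : ℝ) ^ (b + (a - 1)) * ((M : ℝ) / B.card) ^ (a * b) +
      ∑ p ∈ Icc 1 a ×ˢ Icc 1 b, ((Cf p.1 p.2 U).card : ℝ) *
        (B.card : ℝ) ^ ((a - p.1) + (b - p.2)) * ((M : ℝ) / B.card) ^ (a * b - p.1 * p.2) ≤
      (C * (h * g) + 1) * (N : ℝ) ^ ex h g a b := by
  have hN' : (0 : ℝ) < N := by exact_mod_cast hN
  have hab : a * b ≤ h * g := Nat.mul_le_mul ha' hb'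
  have h1 : (B.card : ℝ) ^ (b + (a - 1)) * ((M : ℝ) / B.card) ^ (a * b) ≤
      1 * (N : ℝ) ^ ex h g a b := by
    have hst : b + (a - 1) ≤ a * b := by
      obtain ⟨c, rfl⟩ := Nat.exists_eq_add_of_le ha
      obtain ⟨d, rfl⟩ := Nat.exists_eq_add_of_le hb
      have : (1 + c) * (1 + d) = 1 + c + d + c * d := by ring
      rw [this]
      omega
    refine (one_type N B.card M hN β q hβ hn hq hM (b + (a - 1)) (a * b) hst).trans ?_
    have h2 := coef_le_one hβ hβ1 hq hqβ (b + (a - 1)) (a * b) hst hab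
    have h3 : al h g * ((a * b : ℕ) : ℝ) - ((a * b - (b + (a - 1)) : ℕ) : ℝ) = ex h g a b := by
      unfold ex
      rw [Nat.cast_sub hst]
      push_cast [ha]
      ring
    rw [h3]
    exact mul_le_mul_of_nonneg_right h2 (by positivity)
  have h2 : ∑ p ∈ Icc 1 a ×ˢ Icc 1 b, ((Cf p.1 p.2 U).card : ℝ) *
        (B.card : ℝ) ^ ((a - p.1) + (b - p.2)) * ((M : ℝ) / B.card) ^ (a * b - p.1 * p.2) ≤
      ∑ p ∈ Icc 1 a ×ˢ Icc 1 b, C * (N : ℝ) ^ ex h g a b := by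
    apply sum_le_sum
    rintro ⟨a', b'⟩ hp
    rw [mem_product, mem_Icc, mem_Icc] at hp
    obtain ⟨⟨p1, p2⟩, p3, p4⟩ := hp
    simp only at p1 p2 p3 p4 ⊢
    have hst := nat_mul_sub p1 p3 p2 p4
    have hab' : a' * b' ≤ a * b := Nat.mul_le_mul p2 p4
    have h3 := hZ a' b' p1 (p2.trans ha') p3 (p4.trans hb')
    have h4 := one_type (h := h) (g := g) N B.card M hN β q hβ hn hq hM _ _ hst
    have h5 := coef_le_one hβ hβ1 hq hqβ _ _ hst (by omega)
    rw [mul_assoc]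
    calc ((Cf a' b' U).card : ℝ) * ((B.card : ℝ) ^ ((a - a') + (b - b')) *
          ((M : ℝ) / B.card) ^ (a * b - a' * b')) ≤
        (C * (N : ℝ) ^ ex h g a' b') * (1 * (N : ℝ) ^ (al h g * ((a * b - a' * b' : ℕ) : ℝ) -
          ((a * b - a' * b' - ((a - a') + (b - b')) : ℕ) : ℝ))) := by
          apply mul_le_mul h3 _ (by positivity) (by positivity)
          exact h4.trans (mul_le_mul_of_nonneg_right h5 (by positivity))
      _ = C * (N : ℝ) ^ ex h g a b := by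
          rw [one_mul, mul_assoc, ← Real.rpow_add hN']
          congr 2
          unfold ex
          rw [Nat.cast_sub hst, Nat.cast_sub hab']
          push_cast [p2, p4]
          ring
  rw [sum_const, card_product, Nat.card_Icc, Nat.card_Icc, nsmul_eq_mul] at h2
  have h3 : (((a + 1 - 1) * (b + 1 - 1) : ℕ) : ℝ) ≤ (h : ℝ) * g := by
    simp only [Nat.add_sub_cancel]
    exact_mod_cast hab
  have h4 : (((a + 1 - 1) * (b + 1 - 1) : ℕ) : ℝ) * (C * (N : ℝ) ^ ex h g a b) ≤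
      ((h : ℝ) * g) * (C * (N : ℝ) ^ ex h g a b) :=
    mul_le_mul_of_nonneg_right h3 (by positivity)
  linarith

include hh hg hN hβ hβ1 hq hqβ hC hn hM hZ in
theorem est2 (hU0 : Cf h g U = ∅) :
    (B.card : ℝ) ^ (g + (h - 1)) * ((M : ℝ) / B.card) ^ (h * g) +
      ∑ p ∈ Icc 1 h ×ˢ Icc 1 g, ((Cf p.1 p.2 U).card : ℝ) *
        (B.card : ℝ) ^ ((h - p.1) + (g - p.2)) * ((M : ℝ) / B.card) ^ (h * g - p.1 * p.2) ≤
      (C * (h * g) + 1) * (q / β ^ (h * g) * (q * (N : ℝ) ^ al h g)) := by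
  have hN' : (0 : ℝ) < N := by exact_mod_cast hN
  have hb1 : (0 : ℝ) < β ^ (h * g) := by positivity
  have h1 : (B.card : ℝ) ^ (g + (h - 1)) * ((M : ℝ) / B.card) ^ (h * g) ≤
      q / β ^ (h * g) * (q * (N : ℝ) ^ al h g) := by
    have hst : g + (h - 1) ≤ h * g := by
      obtain ⟨c, rfl⟩ := Nat.exists_eq_add_of_le (show 1 ≤ h by omega)
      obtain ⟨d, rfl⟩ := Nat.exists_eq_add_of_le (show 1 ≤ g by omega)
      have : (1 + c) * (1 + d) = 1 + c + d + c * d := by ring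
      rw [this]
      omega
    refine (one_type N B.card M hN β q hβ hn hq hM (g + (h - 1)) (h * g) hst).trans ?_
    have h2 := coef_le hβ hβ1 hq hqβ (g + (h - 1)) (h * g) le_rfl (by nlinarith)
    have h3 : al h g * ((h * g : ℕ) : ℝ) - ((h * g - (g + (h - 1)) : ℕ) : ℝ) = al h g := by
      have h4 := ex_top hh hg
      unfold ex at h4
      rw [Nat.cast_sub hst]
      push_cast [show 1 ≤ h by omega]
      linarith
    rw [h3, ← mul_assoc]
    exact mul_le_mul_of_nonneg_right h2 (by positivity)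
  have h2 : ∑ p ∈ Icc 1 h ×ˢ Icc 1 g, ((Cf p.1 p.2 U).card : ℝ) *
        (B.card : ℝ) ^ ((h - p.1) + (g - p.2)) * ((M : ℝ) / B.card) ^ (h * g - p.1 * p.2) ≤
      ∑ p ∈ Icc 1 h ×ˢ Icc 1 g, C * (q / β ^ (h * g) * (q * (N : ℝ) ^ al h g)) := by
    apply sum_le_sum
    rintro ⟨a', b'⟩ hp
    rw [mem_product, mem_Icc, mem_Icc] at hp
    obtain ⟨⟨p1, p2⟩, p3, p4⟩ := hp
    simp only at p1 p2 p3 p4 ⊢
    by_cases hbad : a' = h ∧ b' = g
    · obtain ⟨rfl, rfl⟩ := hbad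
      rw [hU0]
      simp only [card_empty, Nat.cast_zero, zero_mul]
      positivity
    · have ht2 : 2 ≤ h * g - a' * b' := by
        have : a' * b' + 2 ≤ h * g := by
          rcases Nat.lt_or_ge a' h with h5 | h5
          · obtain ⟨c, rfl⟩ := Nat.exists_eq_add_of_lt h5
            have := Nat.mul_le_mul_left a' p4
            nlinarith
          · have h6 : b' < g := by
              by_contra h6
              exact hbad ⟨by omega, by omega⟩
            obtain ⟨c, rfl⟩ := Nat.exists_eq_add_of_lt h6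
            have := Nat.mul_le_mul_right b' p2
            nlinarith
        omega
      have hst := nat_mul_sub p1 p3 p2 p4
      have hab' : a' * b' ≤ h * g := Nat.mul_le_mul p2 p4
      have h3 := hZ a' b' p1 p2 p3 p4
      have h4 := one_type (h := h) (g := g) N B.card M hN β q hβ hn hq hM _ _ hst
      have h5 := coef_le hβ hβ1 hq hqβ ((h - a') + (g - b')) (h * g - a' * b') (by omega) ht2
      rw [mul_assoc]
      calc ((Cf a' b' U).card : ℝ) * ((B.card : ℝ) ^ ((h - a') + (g - b')) *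
            ((M : ℝ) / B.card) ^ (h * g - a' * b')) ≤
          (C * (N : ℝ) ^ ex h g a' b') * ((q / β ^ (h * g) * q) *
            (N : ℝ) ^ (al h g * ((h * g - a' * b' : ℕ) : ℝ) -
            ((h * g - a' * b' - ((h - a') + (g - b')) : ℕ) : ℝ))) := by
            apply mul_le_mul h3 _ (by positivity) (by positivity)
            exact h4.trans (mul_le_mul_of_nonneg_right h5 (by positivity))
        _ = C * (q / β ^ (h * g) * q) * ((N : ℝ) ^ ex h g a' b' *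
            (N : ℝ) ^ (al h g * ((h * g - a' * b' : ℕ) : ℝ) -
            ((h * g - a' * b' - ((h - a') + (g - b')) : ℕ) : ℝ))) := by ring
        _ = C * (q / β ^ (h * g) * (q * (N : ℝ) ^ al h g)) := by
            rw [← Real.rpow_add hN']
            have e : ex h g a' b' + (al h g * ((h * g - a' * b' : ℕ) : ℝ) -
                ((h * g - a' * b' - ((h - a') + (g - b')) : ℕ) : ℝ)) = al h g := by
              have h6 := ex_top hh hg
              unfold ex at h6 ⊢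
              rw [Nat.cast_sub hst, Nat.cast_sub hab']
              push_cast [p2, p4]
              linarith
            rw [e]
            ring
  rw [sum_const, card_product, Nat.card_Icc, Nat.card_Icc, nsmul_eq_mul] at h2
  simp only [Nat.add_sub_cancel] at h2
  push_cast at h2
  linarith

end est

end Run7.h993.Chg
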