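import Pool.Agent.Run7.h993.ChC

set_option autoImplicit false

/-!
# The extension step: the choice of the random set
-/

namespace Run7.h993.Chg

open Finset

variable {h g N : ℕ} {U B : Finset ℕ} {C β q : ℝ}

theorem le_sum_of_mem (I : Finset (ℕ × ℕ)) (f : ℕ × ℕ → ℝ) (hf : ∀ p, 0 ≤ f p) (p : ℕ × ℕ)
    (hp : p ∈ I) : f p ≤ ∑ r ∈ I, f r := single_le_sum (fun r _ => hf r) hp

/-- **Extension step.** -/
theorem step (hh : 2 ≤ h) (hg : 2 ≤ g) (hN : 0 < N) (hβ : 0 < β) (hβ1 : β ≤ 1) (hq : 0 < q)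
    (hqβ : q ≤ β ^ (h * g)) (hC : 1 ≤ C) (hn : β * N ≤ B.card)
    (hκ : q / β ^ (h * g) * (4 * ((h : ℝ) * g + 1) * (C * (h * g) + 1)) ≤ 1)
    (hU : ∀ u ∈ U, 4 * u ≤ N) (hBN : ∀ b ∈ B, N ≤ b)
    (hfree : ThreeAPFree ((U ∪ B : Finset ℕ) : Set ℕ))
    (hZ : ∀ a b, 1 ≤ a → a ≤ h → 1 ≤ b → b ≤ g →
      ((Cf a b U).card : ℝ) ≤ C * (N : ℝ) ^ ex h g a b)
    (hU0 : Cf h g U = ∅) :
    ∃ A : Finset ℕ, A ⊆ B ∧ ((⌊q * (N : ℝ) ^ al h g⌋₊ : ℕ) : ℝ) ≤ 2 * A.card ∧
      Cf h g (U ∪ A) = ∅ ∧ ∀ a b, 1 ≤ a → a ≤ h → 1 ≤ b → b ≤ g →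
        ((Cf a b (U ∪ A)).card : ℝ) ≤
          ((h : ℝ) * g + 1) * (C * (h * g) + 1) * (N : ℝ) ^ ex h g a b := by
  classical
  have hN' : (0 : ℝ) < N := by exact_mod_cast hN
  have hh' : (2 : ℝ) ≤ h := by exact_mod_cast hh
  have hg' : (2 : ℝ) ≤ g := by exact_mod_cast hg
  have hC0 : 0 ≤ C := by linarith
  set M := ⌊q * (N : ℝ) ^ al h g⌋₊ with hMdef
  rcases Nat.eq_zero_or_pos M with hM0 | hM0
  · refine ⟨∅, empty_subset _, by rw [hM0]; simp, by rwa [union_empty], ?_⟩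
    intro a b ha ha' hb hb'
    rw [union_empty]
    refine (hZ a b ha ha' hb hb').trans ?_
    apply mul_le_mul_of_nonneg_right _ (by positivity)
    have hP : (1 : ℝ) ≤ (h : ℝ) * g := by nlinarith
    have h1 : C ≤ C * ((h : ℝ) * g) := le_mul_of_one_le_right hC0 hP
    have h2 : C * ((h : ℝ) * g) + 1 ≤ ((h : ℝ) * g + 1) * (C * ((h : ℝ) * g) + 1) :=
      le_mul_of_one_le_left (by positivity) (by linarith)
    linarith
  have hMle : (M : ℝ) ≤ q * (N : ℝ) ^ al h g := Nat.floor_le (by positivity)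
  have hMge : q * (N : ℝ) ^ al h g ≤ 2 * M := by
    have h1 := Nat.lt_floor_add_one (q * (N : ℝ) ^ al h g)
    rw [← hMdef] at h1
    have h2 : (1 : ℝ) ≤ M := by exact_mod_cast hM0
    linarith
  have hMn : M ≤ B.card := by
    have h1 : q ≤ β := by
      calc q ≤ β ^ (h * g) := hqβ
        _ ≤ β ^ 1 := pow_le_pow_of_le_one hβ.le hβ1 (by nlinarith)
        _ = β := pow_one β
    have h2 : (N : ℝ) ^ al h g ≤ N := by
      calc (N : ℝ) ^ al h g ≤ (N : ℝ) ^ (1 : ℝ) :=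
            Real.rpow_le_rpow_of_exponent_le (by exact_mod_cast hN) (al_le_one hh hg)
        _ = N := Real.rpow_one _
    have h3 : (M : ℝ) ≤ B.card := by
      calc (M : ℝ) ≤ q * (N : ℝ) ^ al h g := hMle
        _ ≤ β * N := mul_le_mul h1 h2 (by positivity) hβ.le
        _ ≤ B.card := hn
    exact_mod_cast h3
  have hB : 0 < B.card := lt_of_lt_of_le hM0 hMn
  have hd : Disjoint U B := by
    rw [disjoint_left]
    intro u hu hb
    have := hU u hu
    have := hBN u hb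
    omega
  -- the two estimates
  have hρ : (0 : ℝ) ≤ (M : ℝ) / B.card := by positivity
  have E1 : ∀ a b, 1 ≤ a → a ≤ h → 1 ≤ b → b ≤ g →
      ∑ A ∈ powersetCard M B, ((Cf a b (U ∪ A)).card : ℝ) ≤
        ((powersetCard M B).card : ℝ) * ((C * (h * g) + 1) * (N : ℝ) ^ ex h g a b) := by
    intro a b ha ha' hb hb'
    refine (avg hb hd M hMn hB).trans ?_
    apply mul_le_mul_of_nonneg_left _ (by positivity)
    exact (type_sum hN hU hBN hfree hb _ hρ).trans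
      (est1 hN hβ hβ1 hq hqβ hC0 hn hMle hZ ha ha' hb hb')
  have E2 : ∑ A ∈ powersetCard M B, ((Cf h g (U ∪ A)).card : ℝ) ≤
        ((powersetCard M B).card : ℝ) *
          ((C * (h * g) + 1) * (q / β ^ (h * g) * (q * (N : ℝ) ^ al h g))) := by
    refine (avg (by omega) hd M hMn hB).trans ?_
    apply mul_le_mul_of_nonneg_left _ (by positivity)
    exact (type_sum hN hU hBN hfree (by omega) _ hρ).trans
      (est2 hh hg hN hβ hβ1 hq hqβ hC0 hn hMle hZ hU0)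
  -- the weights
  set w : ℕ × ℕ → ℝ := fun p => (C * (h * g) + 1) * (N : ℝ) ^ ex h g p.1 p.2 with hw
  set w0 : ℝ := (C * (h * g) + 1) * (q / β ^ (h * g) * (q * (N : ℝ) ^ al h g)) with hw0
  have hwpos : ∀ p, 0 < w p := fun p => by simp only [hw]; positivity
  have hw0pos : 0 < w0 := by positivity
  set I : Finset (ℕ × ℕ) := Icc 1 h ×ˢ Icc 1 g with hI
  have hIcard : I.card = h * g := by rw [hI, card_product, Nat.card_Icc, Nat.card_Icc]; simp
  have hsum : ∑ A ∈ powersetCard M B, (∑ p ∈ I, ((Cf p.1 p.2 (U ∪ A)).card : ℝ) / w p +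
      ((Cf h g (U ∪ A)).card : ℝ) / w0) ≤ ∑ A ∈ powersetCard M B, ((h : ℝ) * g + 1) := by
    rw [sum_add_distrib, sum_comm]
    have h1 : ∑ p ∈ I, ∑ A ∈ powersetCard M B, ((Cf p.1 p.2 (U ∪ A)).card : ℝ) / w p ≤
        ∑ p ∈ I, ((powersetCard M B).card : ℝ) := by
      apply sum_le_sum
      intro p hp
      rw [hI, mem_product, mem_Icc, mem_Icc] at hp
      rw [← sum_div, div_le_iff₀ (hwpos p)]
      exact E1 p.1 p.2 hp.1.1 hp.1.2 hp.2.1 hp.2.2
    have h2 : ∑ A ∈ powersetCard M B, ((Cf h g (U ∪ A)).card : ℝ) / w0 ≤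
        ((powersetCard M B).card : ℝ) := by
      rw [← sum_div, div_le_iff₀ hw0pos]
      exact E2
    rw [sum_const, hIcard, nsmul_eq_mul] at h1
    rw [sum_const, nsmul_eq_mul]
    push_cast at h1
    nlinarith
  obtain ⟨A, hA, hAle⟩ := exists_le_of_sum_le (powersetCard_nonempty.2 hMn) hsum
  rw [mem_powersetCard] at hA
  obtain ⟨hAB, hAM⟩ := hA
  have F1 : ∀ a b, 1 ≤ a → a ≤ h → 1 ≤ b → b ≤ g →
      ((Cf a b (U ∪ A)).card : ℝ) ≤ ((h : ℝ) * g + 1) * w (a, b) := by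
    intro a b ha ha' hb hb'
    have hmem : (a, b) ∈ I := by
      rw [hI, mem_product, mem_Icc, mem_Icc]
      exact ⟨⟨ha, ha'⟩, hb, hb'⟩
    have h1 := le_sum_of_mem I (fun p : ℕ × ℕ => ((Cf p.1 p.2 (U ∪ A)).card : ℝ) / w p)
      (fun p => div_nonneg (Nat.cast_nonneg _) (hwpos p).le) (a, b) hmem
    beta_reduce at h1
    have h2 : 0 ≤ ((Cf h g (U ∪ A)).card : ℝ) / w0 := by positivity
    rw [← div_le_iff₀ (hwpos _)]
    linarith
  have F2 : ((Cf h g (U ∪ A)).card : ℝ) ≤ ((h : ℝ) * g + 1) * w0 := by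
    have h1 : 0 ≤ ∑ p ∈ I, ((Cf p.1 p.2 (U ∪ A)).card : ℝ) / w p :=
      sum_nonneg (fun p _ => div_nonneg (Nat.cast_nonneg _) (hwpos p).le)
    rw [← div_le_iff₀ hw0pos]
    linarith
  -- few bad configurations
  have F3 : 2 * ((Cf h g (U ∪ A)).card : ℝ) ≤ M := by
    have h1 : ((h : ℝ) * g + 1) * w0 = (q / β ^ (h * g) *
        (4 * ((h : ℝ) * g + 1) * (C * (h * g) + 1))) * (q * (N : ℝ) ^ al h g) / 4 := by
      rw [hw0]; ring
    have h2 : (q / β ^ (h * g) * (4 * ((h : ℝ) * g + 1) * (C * (h * g) + 1))) *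
        (q * (N : ℝ) ^ al h g) ≤ 1 * (q * (N : ℝ) ^ al h g) :=
      mul_le_mul_of_nonneg_right hκ (by positivity)
    linarith
  -- removal
  have hT : ∀ p ∈ Cf h g (U ∪ A), (Tp B p).Nonempty := by
    intro p hp
    by_contra hcon
    rw [not_nonempty_iff_eq_empty] at hcon
    have h1 : p ∈ Cf h g (U ∪ ∅) := by
      rw [Cf_union_iff (by omega) hd (empty_subset _)]
      exact ⟨Cf_mono (by omega) (union_subset_union_right hAB) hp, by rw [hcon]⟩
    rw [union_empty, hU0] at h1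
    exact absurd h1 (notMem_empty _)
  choose! r hr using hT
  set R := (Cf h g (U ∪ A)).image r with hR
  have hRc : R.card ≤ (Cf h g (U ∪ A)).card := card_image_le
  refine ⟨A \ R, sdiff_subset.trans hAB, ?_, ?_, ?_⟩
  · have h1 := le_card_sdiff R A
    have h2 : (A.card : ℝ) ≤ (A \ R).card + R.card := by
      have : A.card ≤ (A \ R).card + R.card := by omega
      exact_mod_cast this
    have h3 : (R.card : ℝ) ≤ (Cf h g (U ∪ A)).card := by exact_mod_cast hRc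
    have h4 : (A.card : ℝ) = M := by rw [hAM]
    linarith
  · rw [eq_empty_iff_forall_notMem]
    intro p hp
    have h1 : p ∈ Cf h g (U ∪ A) := Cf_mono (by omega) (union_subset_union_right sdiff_subset) hp
    have h2 := hr p h1
    have h3 : r p ∈ R := mem_image_of_mem r h1
    have h4 := ((Cf_union_iff (by omega) hd (sdiff_subset.trans hAB)).1 hp).2 h2
    exact (mem_sdiff.1 h4).2 h3
  · intro a b ha ha' hb hb'
    have h1 : ((Cf a b (U ∪ (A \ R))).card : ℝ) ≤ (Cf a b (U ∪ A)).card := by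
      exact_mod_cast card_le_card (Cf_mono hb (union_subset_union_right sdiff_subset))
    refine h1.trans ((F1 a b ha ha' hb hb').trans_eq ?_)
    simp only [hw]
    ring

end Run7.h993.Chg
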