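import Pool.Agent.Run7.h993.ChD

set_option autoImplicit false

/-!
# The blocks and the recursion
-/

namespace Run7.h993.Chg

open Finset

/-- the scales -/
def NN (m : ℕ) : ℕ := 2 ^ ((m + 2) ^ 2)

theorem NN_pos (m : ℕ) : 0 < NN m := by unfold NN; positivity

theorem NN_mono {m n : ℕ} (h : m ≤ n) : NN m ≤ NN n := by
  unfold NN
  exact Nat.pow_le_pow_right (by norm_num) (Nat.pow_le_pow_left (by omega) 2)

theorem NN_succ (m : ℕ) : 8 * NN m ≤ NN (m + 1) := by
  unfold NN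
  have : (m + 1 + 2) ^ 2 = (m + 2) ^ 2 + (2 * m + 5) := by ring
  rw [this, pow_add, mul_comm]
  apply Nat.mul_le_mul_left
  calc 8 = 2 ^ 3 := by norm_num
    _ ≤ 2 ^ (2 * m + 5) := Nat.pow_le_pow_right (by norm_num) (by omega)

/-- the density of the block -/
noncomputable def bb (m : ℕ) : ℝ := (1 / 2 : ℝ) ^ (5 * (m + 2) + 2)

theorem roth_ge (m : ℕ) : bb m * NN m ≤ (rothNumberNat (NN m / 4) : ℝ) := by
  have hK : NN m / 4 = 2 ^ ((m + 2) ^ 2 - 2) := by
    unfold NN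
    have h1 : (m + 2) ^ 2 = ((m + 2) ^ 2 - 2) + 2 := by
      have : 2 ^ 2 ≤ (m + 2) ^ 2 := Nat.pow_le_pow_left (by omega) 2
      omega
    conv_lhs => rw [h1, pow_add]
    norm_num
  have hN4 : (NN m : ℝ) = 4 * ((NN m / 4 : ℕ) : ℝ) := by
    have h2 : NN m = 4 * (NN m / 4) := by
      rw [hK]
      unfold NN
      have h1 : (m + 2) ^ 2 = ((m + 2) ^ 2 - 2) + 2 := by
        have : 2 ^ 2 ≤ (m + 2) ^ 2 := Nat.pow_le_pow_left (by omega) 2
        omega
      conv_lhs => rw [h1, pow_add]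
      ring
    exact_mod_cast h2
  refine le_trans ?_ Behrend.roth_lower_bound
  set s : ℝ := (m : ℝ) + 2 with hs
  have hs0 : 0 < s := by positivity
  have hlog : Real.log ((NN m / 4 : ℕ) : ℝ) ≤ s ^ 2 * Real.log 2 := by
    rw [hK]
    push_cast
    rw [Real.log_pow]
    apply mul_le_mul_of_nonneg_right _ (Real.log_pos (by norm_num)).le
    have : (((m + 2) ^ 2 - 2 : ℕ) : ℝ) ≤ (((m + 2) ^ 2 : ℕ) : ℝ) := by
      exact_mod_cast Nat.sub_le _ _
    refine this.trans ?_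
    push_cast
    rw [hs]
  have hl2 : 16 ≤ 25 * Real.log 2 := by
    have := Real.log_two_gt_d9
    linarith
  have hl0 : 0 < Real.log 2 := Real.log_pos (by norm_num)
  have hsq : 4 * Real.sqrt (Real.log ((NN m / 4 : ℕ) : ℝ)) ≤ 5 * s * Real.log 2 := by
    have h1 : Real.sqrt (Real.log ((NN m / 4 : ℕ) : ℝ)) ≤ 5 / 4 * s * Real.log 2 := by
      rw [Real.sqrt_le_left (by positivity)]
      refine hlog.trans ?_
      have : s ^ 2 * Real.log 2 * 16 ≤ s ^ 2 * Real.log 2 * (25 * Real.log 2) :=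
        mul_le_mul_of_nonneg_left hl2 (by positivity)
      nlinarith
    linarith
  have hexp : (1 / 2 : ℝ) ^ (5 * (m + 2)) ≤
      Real.exp (-4 * Real.sqrt (Real.log ((NN m / 4 : ℕ) : ℝ))) := by
    have h1 : (1 / 2 : ℝ) ^ (5 * (m + 2)) = Real.exp (-(5 * s * Real.log 2)) := by
      have h2 : (1 / 2 : ℝ) = Real.exp (-Real.log 2) := by
        rw [Real.exp_neg, Real.exp_log (by norm_num)]
        norm_num
      rw [h2, ← Real.exp_nat_mul]
      congr 1
      push_cast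
      rw [hs]
      ring
    rw [h1]
    apply Real.exp_le_exp.2
    linarith
  unfold bb
  rw [pow_add, hN4]
  have h5 : (0 : ℝ) ≤ ((NN m / 4 : ℕ) : ℝ) := Nat.cast_nonneg _
  calc (1 / 2 : ℝ) ^ (5 * (m + 2)) * (1 / 2) ^ 2 * (4 * ((NN m / 4 : ℕ) : ℝ))
      = ((NN m / 4 : ℕ) : ℝ) * (1 / 2 : ℝ) ^ (5 * (m + 2)) := by ring
    _ ≤ ((NN m / 4 : ℕ) : ℝ) * Real.exp (-4 * Real.sqrt (Real.log ((NN m / 4 : ℕ) : ℝ))) :=
        mul_le_mul_of_nonneg_left hexp h5

/-- the blocks -/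
theorem exists_block (m : ℕ) : ∃ B : Finset ℕ, bb m * NN m ≤ (B.card : ℝ) ∧
    (∀ b ∈ B, NN m ≤ b) ∧ (∀ b ∈ B, 4 * b ≤ 5 * NN m) ∧ ThreeAPFree (B : Set ℕ) := by
  obtain ⟨t, ht, hc, hfree⟩ := rothNumberNat_spec (NN m / 4)
  refine ⟨t.image (fun x => x + NN m), ?_, ?_, ?_, ?_⟩
  · rw [card_image_of_injective _ (add_left_injective _), hc]
    exact roth_ge m
  · intro b hb
    obtain ⟨x, _, rfl⟩ := mem_image.1 hb
    omega
  · intro b hb
    obtain ⟨x, hx, rfl⟩ := mem_image.1 hb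
    have := mem_range.1 (ht hx)
    omega
  · intro a ha b hb c hc' h
    obtain ⟨x, hx, rfl⟩ := mem_image.1 (mem_coe.1 ha)
    obtain ⟨y, hy, rfl⟩ := mem_image.1 (mem_coe.1 hb)
    obtain ⟨z, hz, rfl⟩ := mem_image.1 (mem_coe.1 hc')
    have := hfree (mem_coe.2 hx) (mem_coe.2 hy) (mem_coe.2 hz) (by omega)
    rw [this]

/-- the constants -/
noncomputable def CC (h g m : ℕ) : ℝ := (((h : ℝ) * g + 1) ^ 2) ^ m

noncomputable def qq (h g m : ℕ) : ℝ :=
  bb m ^ (h * g) / (4 * ((h : ℝ) * g + 1) * (CC h g m * (h * g) + 1))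

/-- the invariant -/
structure Inv (h g m : ℕ) (U : Finset ℕ) : Prop where
  pos : ∀ u ∈ U, 1 ≤ u
  le : ∀ u ∈ U, 4 * u ≤ NN m
  free : ThreeAPFree (U : Set ℕ)
  good : Cf h g U = ∅
  cnt : ∀ a b, 1 ≤ a → a ≤ h → 1 ≤ b → b ≤ g →
      ((Cf a b U).card : ℝ) ≤ CC h g m * (NN m : ℝ) ^ ex h g a b

theorem CC_one (h g m : ℕ) : 1 ≤ CC h g m := by
  unfold CC
  apply one_le_pow₀
  have : (0 : ℝ) ≤ (h : ℝ) * g := by positivity
  nlinarith

theorem bb_pos (m : ℕ) : 0 < bb m := by unfold bb; positivity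

theorem bb_le (m : ℕ) : bb m ≤ 1 := pow_le_one₀ (by norm_num) (by norm_num)

theorem qq_pos (h g m : ℕ) : 0 < qq h g m := by
  unfold qq
  have := CC_one h g m
  have := bb_pos m
  positivity

theorem inv_zero {h g : ℕ} (hh : 2 ≤ h) (hg : 2 ≤ g) : Inv h g 0 ∅ := by
  have hemp : ∀ a b, 1 ≤ a → 1 ≤ b → Cf a b ∅ = ∅ := by
    intro a b ha hb
    rw [eq_empty_iff_forall_notMem]
    intro p hp
    rw [mem_Cf hb] at hp
    obtain ⟨k, hk⟩ := card_pos.1 (show 0 < p.2.card by omega)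
    exact absurd (hp.2.2.2 0 hp.2.2.1 k hk) (notMem_empty _)
  refine ⟨by simp, by simp, by simp, hemp _ _ (by omega) (by omega), ?_⟩
  intro a b ha _ hb _
  rw [hemp a b ha hb]
  simp only [card_empty, Nat.cast_zero]
  have := CC_one h g 0
  positivity

theorem free_union {N : ℕ} {U B : Finset ℕ} (hN : 0 < N) (hU : ∀ u ∈ U, 4 * u ≤ N)
    (hB1 : ∀ b ∈ B, N ≤ b) (hB2 : ∀ b ∈ B, 4 * b ≤ 5 * N) (hUf : ThreeAPFree (U : Set ℕ))
    (hBf : ThreeAPFree (B : Set ℕ)) : ThreeAPFree ((U ∪ B : Finset ℕ) : Set ℕ) := by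
  intro a ha b hb c hc h
  rcases mem_union.1 (mem_coe.1 ha) with ha | ha <;> rcases mem_union.1 (mem_coe.1 hb) with hb | hb
    <;> rcases mem_union.1 (mem_coe.1 hc) with hc | hc
  · exact hUf (mem_coe.2 ha) (mem_coe.2 hb) (mem_coe.2 hc) h
  · have := hU _ ha; have := hU _ hb; have := hB1 _ hc; omega
  · have := hU _ ha; have := hB1 _ hb; have := hU _ hc; omega
  · have := hU _ ha; have := hB1 _ hb; have := hB2 _ hc; omega
  · have := hB1 _ ha; have := hU _ hb; have := hU _ hc; omega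
  · have := hB1 _ ha; have := hU _ hb; have := hB1 _ hc; omega
  · have := hB2 _ ha; have := hB1 _ hb; have := hU _ hc; omega
  · exact hBf (mem_coe.2 ha) (mem_coe.2 hb) (mem_coe.2 hc) h

theorem inv_step {h g : ℕ} (hh : 2 ≤ h) (hg : 2 ≤ g) (m : ℕ) (U : Finset ℕ) (hI : Inv h g m U) :
    ∃ A : Finset ℕ, (∀ a ∈ A, NN m ≤ a ∧ a ≤ 2 * NN m) ∧
      ((⌊qq h g m * (NN m : ℝ) ^ al h g⌋₊ : ℕ) : ℝ) ≤ 2 * A.card ∧ Inv h g (m + 1) (U ∪ A) := by
  obtain ⟨B, hBc, hB1, hB2, hBf⟩ := exists_block m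
  have hb0 := bb_pos m
  have hC := CC_one h g m
  have hq0 := qq_pos h g m
  have hhg : (0 : ℝ) ≤ (h : ℝ) * g := by positivity
  have hden : 1 ≤ 4 * ((h : ℝ) * g + 1) * (CC h g m * (h * g) + 1) := by
    have h1 : 1 ≤ 4 * ((h : ℝ) * g + 1) := by linarith
    have h2 : 1 ≤ CC h g m * (h * g) + 1 := by nlinarith
    nlinarith
  have hfree := free_union (NN_pos m) hI.le hB1 hB2 hI.free hBf
  obtain ⟨A, hA1, hA2, hA3, hA4⟩ := step (q := qq h g m) (C := CC h g m) hh hg (NN_pos m) hb0 (bb_le m) hq0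
    (by
      unfold qq
      exact div_le_self (by positivity) hden) hC hBc
    (by
      unfold qq
      apply le_of_eq
      have : bb m ^ (h * g) ≠ 0 := by positivity
      field_simp) hI.le hB1 hfree hI.cnt hI.good
  have h8 := NN_succ m
  refine ⟨A, ?_, hA2, ?_⟩
  · intro a ha
    have := hB1 a (hA1 ha)
    have := hB2 a (hA1 ha)
    omega
  · refine ⟨?_, ?_, ?_, hA3, ?_⟩
    · intro u hu
      rcases mem_union.1 hu with h | h
      · exact hI.pos u h
      · have := hB1 u (hA1 h)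
        have := NN_pos m
        omega
    · intro u hu
      rcases mem_union.1 hu with h | h
      · have := hI.le u h
        omega
      · have := hB2 u (hA1 h)
        omega
    · exact hfree.mono (by
        have := union_subset_union_right hA1 (s := U)
        exact_mod_cast this)
    · intro a b ha ha' hb hb'
      refine (hA4 a b ha ha' hb hb').trans ?_
      have h1 : ((h : ℝ) * g + 1) * (CC h g m * (h * g) + 1) ≤ CC h g (m + 1) := by
        have e : CC h g (m + 1) = CC h g m * ((h : ℝ) * g + 1) ^ 2 := by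
          unfold CC
          rw [pow_succ]
        rw [e]
        have e2 : CC h g m * (h * g) + 1 ≤ CC h g m * ((h : ℝ) * g + 1) := by linarith
        calc ((h : ℝ) * g + 1) * (CC h g m * (h * g) + 1)
            ≤ ((h : ℝ) * g + 1) * (CC h g m * ((h : ℝ) * g + 1)) :=
              mul_le_mul_of_nonneg_left e2 (by linarith)
          _ = CC h g m * ((h : ℝ) * g + 1) ^ 2 := by ring
      have h2 : (NN m : ℝ) ^ ex h g a b ≤ (NN (m + 1) : ℝ) ^ ex h g a b := by
        apply Real.rpow_le_rpow (by positivity) _ (ex_nonneg hh hg ha ha' hb hb')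
        exact_mod_cast NN_mono (Nat.le_succ m)
      apply mul_le_mul h1 h2 (by positivity)
      have := CC_one h g (m + 1)
      linarith

end Run7.h993.Chg
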