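import Pool.Agent.Run7.h993.ChE

set_option autoImplicit false

/-!
# The infinite sequence
-/

namespace Run7.h993.Chg

open Finset Filter

/-- the chain of finite sets -/
theorem exists_chain {h g : ℕ} (hh : 2 ≤ h) (hg : 2 ≤ g) : ∃ U : ℕ → Finset ℕ,
    (∀ m, Inv h g m (U m)) ∧ Monotone U ∧ ∀ m, ∃ A ⊆ U (m + 1), (∀ a ∈ A, a ≤ 2 * NN m) ∧
      ((⌊qq h g m * (NN m : ℝ) ^ al h g⌋₊ : ℕ) : ℝ) ≤ 2 * A.card := by
  classical
  have hs := inv_step hh hg
  choose! f hf1 hf2 hf3 using hs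
  let U : ℕ → Finset ℕ := fun m => Nat.rec ∅ (fun m V => V ∪ f m V) m
  have hU : ∀ m, U (m + 1) = U m ∪ f m (U m) := fun m => rfl
  have hI : ∀ m, Inv h g m (U m) := by
    intro m
    induction m with
    | zero => exact inv_zero hh hg
    | succ m ih =>
      rw [hU]
      exact hf3 m _ ih
  refine ⟨U, hI, ?_, ?_⟩
  · apply monotone_nat_of_le_succ
    intro m
    rw [hU]
    exact subset_union_left
  · intro m
    refine ⟨f m (U m), ?_, fun a ha => (hf1 m _ (hI m) a ha).2, hf2 m _ (hI m)⟩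
    rw [hU]
    exact subset_union_right

/-- lower bound of the size of the new elements -/
theorem qq_ge {h g : ℕ} (hh : 2 ≤ h) (hg : 2 ≤ g) : ∃ c : ℕ, ∀ m : ℕ,
    (2 : ℝ) ^ (al h g * ((m : ℝ) + 2) ^ 2 - c * (m + 1)) ≤ qq h g m * (NN m : ℝ) ^ al h g := by
  set P : ℝ := (h : ℝ) * g with hP
  have hP1 : (1 : ℝ) ≤ P := by
    have h1 : (2 : ℝ) ≤ h := by exact_mod_cast hh
    have h2 : (2 : ℝ) ≤ g := by exact_mod_cast hg
    rw [hP]; nlinarith
  obtain ⟨l, hl⟩ := pow_unbounded_of_one_lt ((P + 1) ^ 2) (one_lt_two (α := ℝ))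
  refine ⟨12 * (h * g) + 2 + l, fun m => ?_⟩
  have hN : (NN m : ℝ) ^ al h g = (2 : ℝ) ^ (al h g * ((m : ℝ) + 2) ^ 2) := by
    unfold NN
    push_cast
    rw [← Real.rpow_natCast, ← Real.rpow_mul (by norm_num)]
    congr 1
    push_cast
    ring
  rw [hN, Real.rpow_sub (by norm_num), mul_comm (qq h g m), div_eq_mul_inv]
  apply mul_le_mul_of_nonneg_left _ (by positivity)
  -- `2 ^ (-c (m+1)) ≤ qq`
  unfold qq bb
  have e1 : ((2 : ℝ) ^ (((12 * (h * g) + 2 + l : ℕ) : ℝ) * ((m : ℝ) + 1)))⁻¹ =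
      ((1 : ℝ) / 2) ^ ((12 * (h * g) + 2 + l) * (m + 1)) := by
    have : (((12 * (h * g) + 2 + l : ℕ) : ℝ) * ((m : ℝ) + 1)) =
        (((12 * (h * g) + 2 + l) * (m + 1) : ℕ) : ℝ) := by push_cast; ring
    rw [this, Real.rpow_natCast, one_div, inv_pow]
  rw [e1]
  have hC := CC_one h g m
  have hden : 4 * ((h : ℝ) * g + 1) * (CC h g m * (h * g) + 1) ≤ (2 : ℝ) ^ (2 + l * (m + 1)) := by
    have h1 : CC h g m * (h * g) + 1 ≤ CC h g m * (P + 1) := by
      rw [← hP]; nlinarith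
    have h2 : CC h g m * (P + 1) ^ 2 = ((P + 1) ^ 2) ^ (m + 1) := by
      unfold CC
      rw [pow_succ ((P + 1) ^ 2)]
    have h3 : ((P + 1) ^ 2) ^ (m + 1) ≤ ((2 : ℝ) ^ l) ^ (m + 1) :=
      pow_le_pow_left₀ (by positivity) hl.le _
    calc 4 * ((h : ℝ) * g + 1) * (CC h g m * (h * g) + 1)
        ≤ 4 * (P + 1) * (CC h g m * (P + 1)) :=
          mul_le_mul_of_nonneg_left h1 (by positivity)
      _ = 4 * (CC h g m * (P + 1) ^ 2) := by ring
      _ ≤ 4 * ((2 : ℝ) ^ l) ^ (m + 1) := by rw [h2]; linarith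
      _ = (2 : ℝ) ^ (2 + l * (m + 1)) := by
          rw [← pow_mul, pow_add]; norm_num
  have hden0 : 0 < 4 * ((h : ℝ) * g + 1) * (CC h g m * (h * g) + 1) := by
    have : 0 ≤ CC h g m := by linarith
    positivity
  rw [le_div_iff₀ hden0]
  calc ((1 : ℝ) / 2) ^ ((12 * (h * g) + 2 + l) * (m + 1)) *
        (4 * ((h : ℝ) * g + 1) * (CC h g m * (h * g) + 1))
      ≤ ((1 : ℝ) / 2) ^ ((12 * (h * g) + 2 + l) * (m + 1)) * (2 : ℝ) ^ (2 + l * (m + 1)) :=
        mul_le_mul_of_nonneg_left hden (by positivity)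
    _ ≤ ((1 / 2 : ℝ) ^ (5 * (m + 2) + 2)) ^ (h * g) := by
        have h1 : (12 * (h * g) + 2 + l) * (m + 1) = (5 * (m + 2) + 2) * (h * g) +
            (2 + l * (m + 1)) + (7 * (h * g) * m + 2 * m) := by ring
        rw [h1, pow_add, pow_add, pow_mul]
        have h2 : ((1 : ℝ) / 2) ^ (7 * (h * g) * m + 2 * m) ≤ 1 :=
          pow_le_one₀ (by norm_num) (by norm_num)
        have h3 : ((1 : ℝ) / 2) ^ (2 + l * (m + 1)) * (2 : ℝ) ^ (2 + l * (m + 1)) = 1 := by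
          rw [← mul_pow]; norm_num
        have h4 : (0 : ℝ) ≤ ((1 / 2 : ℝ) ^ (5 * (m + 2) + 2)) ^ (h * g) := by positivity
        calc ((1 / 2 : ℝ) ^ (5 * (m + 2) + 2)) ^ (h * g) * (1 / 2) ^ (2 + l * (m + 1)) *
              (1 / 2) ^ (7 * (h * g) * m + 2 * m) * (2 : ℝ) ^ (2 + l * (m + 1))
            = ((1 / 2 : ℝ) ^ (5 * (m + 2) + 2)) ^ (h * g) *
              ((1 / 2) ^ (2 + l * (m + 1)) * (2 : ℝ) ^ (2 + l * (m + 1))) *
              (1 / 2) ^ (7 * (h * g) * m + 2 * m) := by ring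
          _ = ((1 / 2 : ℝ) ^ (5 * (m + 2) + 2)) ^ (h * g) *
              (1 / 2) ^ (7 * (h * g) * m + 2 * m) := by rw [h3, mul_one]
          _ ≤ ((1 / 2 : ℝ) ^ (5 * (m + 2) + 2)) ^ (h * g) * 1 :=
              mul_le_mul_of_nonneg_left h2 h4
          _ = _ := mul_one _

/-- the exponents -/
theorem expo {α ε : ℝ} (hα : α ≤ 1) (hε : 0 < ε) (hεα : ε ≤ α) (c : ℕ) :
    ∃ m0 : ℕ, ∀ m : ℕ, m0 ≤ m →
      (((m : ℝ) + 3) ^ 2 + 1) * (α - ε) ≤ α * ((m : ℝ) + 2) ^ 2 - c * (m + 1) - 2 := by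
  obtain ⟨m0, hm0⟩ := exists_nat_ge (((c : ℝ) + 4) / ε)
  refine ⟨m0, fun m hm => ?_⟩
  have h1 : ((c : ℝ) + 4) / ε ≤ (m : ℝ) + 3 := by
    have : (m0 : ℝ) ≤ m := by exact_mod_cast hm
    linarith
  rw [div_le_iff₀ hε] at h1
  have hm' : (0 : ℝ) ≤ m := Nat.cast_nonneg m
  have hc' : (0 : ℝ) ≤ c := Nat.cast_nonneg c
  have h2 : ((c : ℝ) + 4) * ((m : ℝ) + 3) ≤ ((m : ℝ) + 3) * ε * ((m : ℝ) + 3) :=
    mul_le_mul_of_nonneg_right h1 (by positivity)
  have h3 : α * (2 * (m : ℝ) + 6) ≤ 1 * (2 * (m : ℝ) + 6) :=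
    mul_le_mul_of_nonneg_right hα (by positivity)
  nlinarith [mul_nonneg hc' hm']

/-- **Main theorem, for natural numbers.** -/
theorem exists_seq {h g : ℕ} (hh : 2 ≤ h) (hg : 2 ≤ g) : ∃ A : Set ℕ,
    (∀ a ∈ A, 1 ≤ a) ∧
    (∀ (X K : Finset ℕ), X.card = h → K.card = g → 0 ∈ X →
      ¬ (∀ x ∈ X, ∀ k ∈ K, x + k ∈ A)) ∧
    ∀ ε : ℝ, 0 < ε → ∀ᶠ n : ℕ in atTop, ∃ T : Finset ℕ, (∀ t ∈ T, t ∈ A ∧ t ≤ n) ∧
      (n : ℝ) ^ (al h g - ε) ≤ T.card := by
  classical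
  obtain ⟨U, hI, hmono, hA⟩ := exists_chain hh hg
  obtain ⟨c, hc⟩ := qq_ge hh hg
  refine ⟨{a | ∃ m, a ∈ U m}, ?_, ?_, ?_⟩
  · rintro a ⟨m, hm⟩
    exact (hI m).pos a hm
  · intro X K hX hK h0 hcon
    -- all the sums lie in one `U m`
    have h1 : ∀ S : Finset ℕ, (∀ s ∈ S, ∃ m, s ∈ U m) → ∃ m, ∀ s ∈ S, s ∈ U m := by
      intro S
      induction S using Finset.induction_on with
      | empty => exact fun _ => ⟨0, by simp⟩
      | insert a S _ ih =>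
        intro hS
        obtain ⟨m1, h1⟩ := hS a (mem_insert_self _ _)
        obtain ⟨m2, h2⟩ := ih (fun s hs => hS s (mem_insert_of_mem hs))
        refine ⟨max m1 m2, fun s hs => ?_⟩
        rcases mem_insert.1 hs with rfl | hs
        · exact hmono (le_max_left _ _) h1
        · exact hmono (le_max_right _ _) (h2 s hs)
    obtain ⟨m, hm⟩ := h1 ((X ×ˢ K).image (fun z => z.1 + z.2)) (by
      intro s hs
      obtain ⟨⟨x, k⟩, hz, rfl⟩ := mem_image.1 hs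
      rw [mem_product] at hz
      exact hcon x hz.1 k hz.2)
    have h2 : (X, K) ∈ Cf h g (U m) := by
      rw [mem_Cf (by omega)]
      refine ⟨hX, hK, h0, fun x hx k hk => hm _ ?_⟩
      exact mem_image.2 ⟨(x, k), mem_product.2 ⟨hx, hk⟩, rfl⟩
    rw [(hI m).good] at h2
    exact absurd h2 (notMem_empty _)
  · intro ε hε
    -- reduce to `ε ≤ α`
    set ε' := min ε (al h g) with hε'
    have hα := al_pos hh hg
    have hε'0 : 0 < ε' := lt_min hε hα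
    obtain ⟨m0, hm0⟩ := expo (al_le_one hh hg) hε'0 (min_le_right _ _) c
    filter_upwards [eventually_ge_atTop (2 * NN m0)] with n hn
    -- the scale of `n`
    have hex : ∃ m, n < 2 * NN m := by
      refine ⟨n, ?_⟩
      have : n < NN n := by
        unfold NN
        calc n < 2 ^ n := Nat.lt_two_pow_self
          _ ≤ 2 ^ ((n + 2) ^ 2) := Nat.pow_le_pow_right (by norm_num) (by nlinarith)
      omega
    obtain ⟨m, hm, hle⟩ : ∃ m, n < 2 * NN (m + 1) ∧ 2 * NN m ≤ n ∧ m0 ≤ m := by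
      have h1 := Nat.find_spec hex
      have h2 : m0 < Nat.find hex := by
        rw [Nat.lt_find_iff]
        intro k hk hlt
        have := NN_mono hk
        omega
      refine ⟨Nat.find hex - 1, ?_, ?_, by omega⟩
      · rwa [Nat.sub_add_cancel (by omega)]
      · have := Nat.find_min hex (show Nat.find hex - 1 < Nat.find hex by omega)
        omega
    obtain ⟨hle, hm0m⟩ := hle
    obtain ⟨A, hAU, hA2, hAc⟩ := hA m
    refine ⟨A, fun t ht => ⟨⟨m + 1, hAU ht⟩, (hA2 t ht).trans hle⟩, ?_⟩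
    have hn1 : (1 : ℝ) ≤ n := by
      have : 1 ≤ n := le_trans (by have := NN_pos m; omega) hle
      exact_mod_cast this
    have e1 : (n : ℝ) ^ (al h g - ε) ≤ (n : ℝ) ^ (al h g - ε') :=
      Real.rpow_le_rpow_of_exponent_le hn1 (by have := min_le_left ε (al h g); linarith)
    have e2 : (n : ℝ) ≤ (2 : ℝ) ^ (((m : ℝ) + 3) ^ 2 + 1) := by
      have : (n : ℝ) ≤ ((2 * NN (m + 1) : ℕ) : ℝ) := by exact_mod_cast hm.le
      refine this.trans (le_of_eq ?_)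
      unfold NN
      push_cast
      rw [Real.rpow_add (by norm_num), Real.rpow_one, mul_comm]
      congr 1
      rw [← Real.rpow_natCast]
      congr 1
      push_cast
      ring
    have hsub : 0 ≤ al h g - ε' := by have := min_le_right ε (al h g); linarith
    have e3 : (n : ℝ) ^ (al h g - ε') ≤ (2 : ℝ) ^ ((((m : ℝ) + 3) ^ 2 + 1) * (al h g - ε')) := by
      rw [Real.rpow_mul (by norm_num)]
      exact Real.rpow_le_rpow (by linarith) e2 hsub
    have e4 : (2 : ℝ) ^ ((((m : ℝ) + 3) ^ 2 + 1) * (al h g - ε')) ≤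
        (2 : ℝ) ^ (al h g * ((m : ℝ) + 2) ^ 2 - c * (m + 1) - 2) :=
      Real.rpow_le_rpow_of_exponent_le (by norm_num) (hm0 m hm0m)
    have e5 : (2 : ℝ) ^ (al h g * ((m : ℝ) + 2) ^ 2 - c * (m + 1) - 2) =
        (2 : ℝ) ^ (al h g * ((m : ℝ) + 2) ^ 2 - c * (m + 1)) / 4 := by
      rw [Real.rpow_sub (by norm_num)]
      norm_num
    have e6 := hc m
    set x := qq h g m * (NN m : ℝ) ^ al h g with hx
    have e7 : (1 : ℝ) ≤ (n : ℝ) ^ (al h g - ε') := Real.one_le_rpow hn1 hsub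
    have e8 : (1 : ℝ) ≤ x := by
      have : (n : ℝ) ^ (al h g - ε') ≤ x / 4 := by
        refine e3.trans (e4.trans ?_)
        rw [e5]
        linarith
      linarith
    have e9 : x ≤ 2 * (⌊x⌋₊ : ℝ) := by
      have h1 := Nat.lt_floor_add_one x
      have h2 : (1 : ℝ) ≤ (⌊x⌋₊ : ℝ) := by exact_mod_cast (Nat.one_le_floor_iff x).2 e8
      linarith
    rw [e5] at e4
    linarith

end Run7.h993.Chg
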