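import Pool.Agent.Run7.h993.ChF

set_option autoImplicit false

/-!
# Infinite `C_h[g]`-sequences
-/

namespace Run7.h993.Chg

open Finset Filter

theorem main (g h : ℕ) (hh : 2 ≤ h) (hg : 2 ≤ g) :
      ∃ A : Set ℤ,
        A ⊆ {n : ℤ | 1 ≤ n} ∧ A.Infinite ∧
        (∀ X : Finset ℤ, X.card = h → ∀ k : Fin g → ℤ, Function.Injective k →
          ¬ (∀ i : Fin g, ∀ x ∈ X, x + k i ∈ A)) ∧
        ∀ ε : ℝ, 0 < ε →
          ∀ᶠ n : ℕ in atTop,
            (n : ℝ) ^ ((1 - 1 / (h : ℝ)) * (1 - 1 / (g : ℝ)) *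
                (1 + 1 / ((h : ℝ) * (g : ℝ) - 1)) - ε)
              ≤ ((A ∩ Set.Icc (1 : ℤ) (n : ℤ)).ncard : ℝ) := by
  classical
  obtain ⟨A, hA1, hA2, hA3⟩ := exists_seq hh hg
  have hal : (1 - 1 / (h : ℝ)) * (1 - 1 / (g : ℝ)) * (1 + 1 / ((h : ℝ) * (g : ℝ) - 1)) =
      al h g := by
    have h1 : (2 : ℝ) ≤ h := by exact_mod_cast hh
    have h2 : (2 : ℝ) ≤ g := by exact_mod_cast hg
    have h3 : (h : ℝ) * g - 1 ≠ 0 := by nlinarith
    have h4 : (h : ℝ) ≠ 0 := by linarith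
    have h5 : (g : ℝ) ≠ 0 := by linarith
    unfold al
    field_simp
    ring
  have hfin : ∀ n : ℕ, ((fun a : ℕ => (a : ℤ)) '' A ∩ Set.Icc (1 : ℤ) (n : ℤ)).Finite :=
    fun n => (Set.finite_Icc _ _).subset Set.inter_subset_right
  have hgrow : ∀ ε : ℝ, 0 < ε → ∀ᶠ n : ℕ in atTop, (n : ℝ) ^ (al h g - ε) ≤
      (((fun a : ℕ => (a : ℤ)) '' A ∩ Set.Icc (1 : ℤ) (n : ℤ)).ncard : ℝ) := by
    intro ε hε
    filter_upwards [hA3 ε hε] with n hn
    obtain ⟨T, hT1, hT2⟩ := hn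
    refine hT2.trans ?_
    have h1 : ((T.image (fun a : ℕ => (a : ℤ)) : Finset ℤ) : Set ℤ) ⊆
        (fun a : ℕ => (a : ℤ)) '' A ∩ Set.Icc (1 : ℤ) (n : ℤ) := by
      intro z hz
      rw [coe_image] at hz
      obtain ⟨t, ht, rfl⟩ := hz
      obtain ⟨h2, h3⟩ := hT1 t (mem_coe.1 ht)
      refine ⟨⟨t, h2, rfl⟩, ?_, ?_⟩
      · have := hA1 t h2
        show (1 : ℤ) ≤ (t : ℤ)
        exact_mod_cast this
      · show (t : ℤ) ≤ (n : ℤ)
        exact_mod_cast h3
    have h2 := Set.ncard_le_ncard h1 (hfin n)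
    rw [Set.ncard_coe_finset, card_image_of_injective _ Nat.cast_injective] at h2
    exact_mod_cast h2
  refine ⟨(fun a : ℕ => (a : ℤ)) '' A, ?_, ?_, ?_, ?_⟩
  · rintro _ ⟨a, ha, rfl⟩
    have := hA1 a ha
    show (1 : ℤ) ≤ (a : ℤ)
    exact_mod_cast this
  · intro hfinA
    have hα := al_pos hh hg
    have h1 := hgrow (al h g / 2) (by linarith)
    have h2 : Tendsto (fun n : ℕ => (n : ℝ) ^ (al h g - al h g / 2)) atTop atTop :=
      (tendsto_rpow_atTop (by linarith)).comp tendsto_natCast_atTop_atTop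
    have h3 := h2.eventually_gt_atTop (((fun a : ℕ => (a : ℤ)) '' A).ncard : ℝ)
    obtain ⟨n, h4, h5⟩ := (h1.and h3).exists
    have h6 : (((fun a : ℕ => (a : ℤ)) '' A ∩ Set.Icc (1 : ℤ) (n : ℤ)).ncard : ℝ) ≤
        (((fun a : ℕ => (a : ℤ)) '' A).ncard : ℝ) := by
      exact_mod_cast Set.ncard_le_ncard Set.inter_subset_left hfinA
    linarith
  · intro X hX k hk hcon
    have hXne : X.Nonempty := card_pos.1 (by omega)
    set x0 := X.min' hXne with hx0
    have hx0m : x0 ∈ X := X.min'_mem hXne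
    have hx0le : ∀ x ∈ X, x0 ≤ x := fun x hx => X.min'_le x hx
    -- nonnegative representatives
    have hK : ∀ i, ∃ b : ℕ, b ∈ A ∧ (b : ℤ) = x0 + k i := fun i => hcon i x0 hx0m
    choose b hb1 hb2 using hK
    have hbinj : Function.Injective b := by
      intro i j hij
      apply hk
      have h1 := hb2 i
      have h2 := hb2 j
      rw [hij] at h1
      omega
    have hXinj : Set.InjOn (fun x : ℤ => (x - x0).toNat) (X : Set ℤ) := by
      intro x hx y hy hxy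
      have h1 := hx0le x (mem_coe.1 hx)
      have h2 := hx0le y (mem_coe.1 hy)
      simp only at hxy
      omega
    refine hA2 (X.image (fun x : ℤ => (x - x0).toNat)) (univ.image b) ?_ ?_ ?_ ?_
    · rw [card_image_of_injOn hXinj, hX]
    · rw [card_image_of_injective _ hbinj]
      simp
    · exact mem_image.2 ⟨x0, hx0m, by simp⟩
    · intro y hy l hl
      obtain ⟨x, hx, rfl⟩ := mem_image.1 hy
      obtain ⟨i, _, rfl⟩ := mem_image.1 hl
      obtain ⟨a, ha, hae⟩ := hcon i x hx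
      have h1 := hx0le x hx
      have h2 := hb2 i
      have : (x - x0).toNat + b i = a := by
        have h3 : (a : ℤ) = x + k i := hae
        omega
      rw [this]
      exact ha
  · rw [hal]
    exact hgrow

end Run7.h993.Chg
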