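import Pool.Agent.Run7.h993.Cross

set_option autoImplicit false

/-!
# Configurations of mutually non-illuminating points on the boundary of a convex body in `ℝ³`
-/

namespace Run7.h993

/-- three-dimensional Euclidean space -/
abbrev E3 := EuclideanSpace ℝ (Fin 3)

/-- a supporting half-space `f ≤ c` of `K`, with `f < c` on the interior of `K` -/
structure Sup (K : Set E3) where
  f : E3 →L[ℝ] ℝ
  c : ℝ
  le : ∀ y ∈ K, f y ≤ c
  lt : ∀ y ∈ interior K, f y < c

/-- the point `y` lies on the supporting plane -/
def Sup.on {K : Set E3} (s : Sup K) (y : E3) : Prop := s.f y = s.c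

theorem exists_sup {K : Set E3} (hc : Convex ℝ K) (hcl : IsClosed K)
    (hne : (interior K).Nonempty) {x a : E3} (hx : x ∈ K) (ha : a ∈ K)
    (h : (1 / 2 : ℝ) • x + (1 / 2 : ℝ) • a ∉ interior K) :
    ∃ s : Sup K, s.on x ∧ s.on a := by
  obtain ⟨f, hf⟩ := geometric_hahn_banach_open_point hc.interior isOpen_interior h
  have hle : ∀ y ∈ K, f y ≤ f ((1 / 2 : ℝ) • x + (1 / 2 : ℝ) • a) := by
    have hcl' : closure (interior K) = K := by
      rw [hc.closure_interior_eq_closure_of_nonempty_interior hne, hcl.closure_eq]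
    intro y hy
    rw [← hcl'] at hy
    have hclosed : IsClosed {y | f y ≤ f ((1 / 2 : ℝ) • x + (1 / 2 : ℝ) • a)} :=
      isClosed_le f.continuous continuous_const
    exact closure_minimal (fun y hy => (hf y hy).le) hclosed hy
  refine ⟨⟨f, f ((1 / 2 : ℝ) • x + (1 / 2 : ℝ) • a), hle, hf⟩, ?_, ?_⟩
  · have h1 := hle x hx
    have h2 := hle a ha
    simp only [Sup.on, map_add, map_smul, smul_eq_mul] at *
    linarith
  · have h1 := hle x hx
    have h2 := hle a ha
    simp only [Sup.on, map_add, map_smul, smul_eq_mul] at *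
    linarith

theorem Sup.on_of_openSegment {K : Set E3} (s : Sup K) {p q y : E3} (hp : p ∈ K) (hq : q ∈ K)
    (hy : y ∈ openSegment ℝ p q) (h : s.on y) : s.on p ∧ s.on q := by
  obtain ⟨α, β, hα, hβ, hαβ, rfl⟩ := hy
  have h1 := s.le p hp
  have h2 := s.le q hq
  unfold Sup.on at *
  simp only [map_add, map_smul, smul_eq_mul] at h
  have e : α * (s.c - s.f p) + β * (s.c - s.f q) = 0 := by
    have : α * s.c + β * s.c = s.c := by rw [← add_mul, hαβ, one_mul]
    linarith
  have e1 : 0 ≤ α * (s.c - s.f p) := mul_nonneg hα.le (by linarith)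
  have e2 : 0 ≤ β * (s.c - s.f q) := mul_nonneg hβ.le (by linarith)
  have e3 : α * (s.c - s.f p) = 0 := by linarith
  have e4 : β * (s.c - s.f q) = 0 := by linarith
  constructor
  · rcases mul_eq_zero.1 e3 with h | h
    · exact absurd h hα.ne'
    · linarith
  · rcases mul_eq_zero.1 e4 with h | h
    · exact absurd h hβ.ne'
    · linarith

theorem mem_openSegment_of_wbtw {x y z : E3} (h : Wbtw ℝ x y z) (hx : y ≠ x) (hz : y ≠ z) :
    y ∈ openSegment ℝ x z := by
  obtain ⟨t, ht, rfl⟩ := h
  rw [openSegment_eq_image_lineMap]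
  refine ⟨t, ⟨lt_of_le_of_ne ht.1 ?_, lt_of_le_of_ne ht.2 ?_⟩, rfl⟩
  · rintro rfl
    simp at hx
  · rintro rfl
    simp at hz

/-- three pairwise distinct points, none strictly between the two others, are affinely
independent -/
theorem affInd_of {x y z : E3} (hxy : x ≠ y) (hyz : y ≠ z) (hxz : x ≠ z)
    (h1 : x ∉ openSegment ℝ y z) (h2 : y ∉ openSegment ℝ x z) (h3 : z ∉ openSegment ℝ x y) :
    AffineIndependent ℝ ![x, y, z] := by
  rw [affineIndependent_iff_not_collinear_set]
  intro hcol
  rcases hcol.wbtw_or_wbtw_or_wbtw with h | h | h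
  · exact h2 (mem_openSegment_of_wbtw h hxy.symm hyz)
  · exact h3 (by
      rw [openSegment_symm]
      exact mem_openSegment_of_wbtw h hyz.symm hxz.symm)
  · exact h1 (by
      rw [openSegment_symm]
      exact mem_openSegment_of_wbtw h hxz hxy)

/-- Two supporting planes which contain three common affinely independent points coincide. -/
theorem Sup.unique {K : Set E3} (hne : (interior K).Nonempty) (F G : Sup K) {x y z : E3}
    (hi : AffineIndependent ℝ ![x, y, z]) (hFx : F.on x) (hFy : F.on y) (hFz : F.on z)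
    (hGx : G.on x) (hGy : G.on y) (hGz : G.on z) {v : E3} (hv : F.on v) : G.on v := by
  obtain ⟨o, ho⟩ := hne
  have hFo := F.lt o ho
  have hGo := G.lt o ho
  rw [affineIndependent_iff_linearIndependent_vsub ℝ _ (0 : Fin 3)] at hi
  unfold Sup.on at *
  have hF0 : (F.f : E3 →ₗ[ℝ] ℝ) ≠ 0 := by
    intro h
    have h1 : F.f o = 0 := by
      have := LinearMap.congr_fun h o
      simpa using this
    have h2 : F.f x = 0 := by
      have := LinearMap.congr_fun h x
      simpa using this
    linarith
  have hG0 : (G.f : E3 →ₗ[ℝ] ℝ) ≠ 0 := by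
    intro h
    have h1 : G.f o = 0 := by
      have := LinearMap.congr_fun h o
      simpa using this
    have h2 : G.f x = 0 := by
      have := LinearMap.congr_fun h x
      simpa using this
    linarith
  set w : {i : Fin 3 // i ≠ 0} → E3 := fun i => ![x, y, z] i -ᵥ ![x, y, z] 0 with hw
  have hspan : Module.finrank ℝ (Submodule.span ℝ (Set.range w)) = 2 := by
    have := finrank_span_eq_card hi
    rw [this]
    simp
  have hFr : Module.finrank ℝ (LinearMap.ker (F.f : E3 →ₗ[ℝ] ℝ)) = 2 := by
    have := Module.Dual.finrank_ker_add_one_of_ne_zero (f := (F.f : E3 →ₗ[ℝ] ℝ)) hF0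
    have h3 : Module.finrank ℝ E3 = 3 := by simp
    omega
  have hGr : Module.finrank ℝ (LinearMap.ker (G.f : E3 →ₗ[ℝ] ℝ)) = 2 := by
    have := Module.Dual.finrank_ker_add_one_of_ne_zero (f := (G.f : E3 →ₗ[ℝ] ℝ)) hG0
    have h3 : Module.finrank ℝ E3 = 3 := by simp
    omega
  have hFle : Submodule.span ℝ (Set.range w) ≤ LinearMap.ker (F.f : E3 →ₗ[ℝ] ℝ) := by
    rw [Submodule.span_le]
    rintro _ ⟨⟨i, hi0⟩, rfl⟩
    fin_cases i
    · simp at hi0
    · simp [hw, hFx, hFy]
    · simp [hw, hFx, hFz]
  have hGle : Submodule.span ℝ (Set.range w) ≤ LinearMap.ker (G.f : E3 →ₗ[ℝ] ℝ) := by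
    rw [Submodule.span_le]
    rintro _ ⟨⟨i, hi0⟩, rfl⟩
    fin_cases i
    · simp at hi0
    · simp [hw, hGx, hGy]
    · simp [hw, hGx, hGz]
  have e1 := Submodule.eq_of_le_of_finrank_eq hFle (by rw [hspan, hFr])
  have e2 := Submodule.eq_of_le_of_finrank_eq hGle (by rw [hspan, hGr])
  have hk : v - x ∈ LinearMap.ker (F.f : E3 →ₗ[ℝ] ℝ) := by
    simp [hv, hFx]
  rw [← e1, e2] at hk
  have : G.f v - G.f x = 0 := by simpa using hk
  linarith

/-- points `a i`, `x j` of `K` such that `a i` and `x j` lie on a common supporting plane exactly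
when `i ≠ j` -/
structure Conf (K : Set E3) (ι : Type) where
  a : ι → E3
  x : ι → E3
  ha : ∀ i, a i ∈ K
  hx : ∀ i, x i ∈ K
  rel : ∀ i j, i ≠ j → ∃ s : Sup K, s.on (a i) ∧ s.on (x j)
  nrel : ∀ i (s : Sup K), s.on (a i) → ¬ s.on (x i)

namespace Conf

variable {K : Set E3} {ι : Type} (C : Conf K ι)

theorem a_notMem {i l : ι} (h : i ≠ l) {q : E3} (hq : q ∈ K) :
    C.a l ∉ openSegment ℝ (C.a i) q := by
  intro hm
  obtain ⟨s, hs1, hs2⟩ := C.rel l i h.symm
  exact C.nrel i s (s.on_of_openSegment (C.ha i) hq hm hs1).1 hs2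

theorem x_notMem {j k : ι} (h : j ≠ k) {q : E3} (hq : q ∈ K) :
    C.x k ∉ openSegment ℝ (C.x j) q := by
  intro hm
  obtain ⟨s, hs1, hs2⟩ := C.rel j k h
  exact C.nrel j s hs1 (s.on_of_openSegment (C.hx j) hq hm hs2).1

theorem a_inj {i l : ι} (h : i ≠ l) : C.a i ≠ C.a l := by
  intro he
  obtain ⟨s, hs1, hs2⟩ := C.rel l i h.symm
  exact C.nrel i s (by rw [he]; exact hs1) hs2

theorem x_inj {j k : ι} (h : j ≠ k) : C.x j ≠ C.x k := by
  intro he
  obtain ⟨s, hs1, hs2⟩ := C.rel j k h
  exact C.nrel j s hs1 (by rw [he]; exact hs2)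

theorem x_affInd {i j k : ι} (hij : i ≠ j) (hjk : j ≠ k) (hik : i ≠ k) :
    AffineIndependent ℝ ![C.x i, C.x j, C.x k] :=
  affInd_of (C.x_inj hij) (C.x_inj hjk) (C.x_inj hik)
    (C.x_notMem hij.symm (C.hx k)) (C.x_notMem hij (C.hx k)) (C.x_notMem hik (C.hx j))

/-- in a proper crossing the two `a`'s and one `x` are not collinear -/
theorem affInd_cross {i l j k : ι} (hil : i ≠ l) (hjk : j ≠ k) (hij : C.a i ≠ C.x j)
    (hlj : C.a l ≠ C.x j) (hik : C.a i ≠ C.x k) {s t u w : ℝ} (hs : 0 < s) (ht : 0 < t)
    (hw : 0 < w) (hsum : s + u = t + w)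
    (he : s • C.a i + u • C.x j = t • C.a l + w • C.x k) :
    AffineIndependent ℝ ![C.a i, C.a l, C.x j] := by
  by_cases hm : C.x j ∈ openSegment ℝ (C.a i) (C.a l)
  · exfalso
    obtain ⟨α, β, hα, hβ, hαβ, hx⟩ := hm
    -- `x j = α a_i + β a_l`, `w x_k = (s + u α) a_i + (u β - t) a_l`
    have hα' : α = 1 - β := by linarith
    have e1 : w • C.x k = (w - (u * β - t)) • C.a i + (u * β - t) • C.a l := by
      have : w • C.x k = s • C.a i + u • C.x j - t • C.a l := by rw [he]; abel
      rw [this, ← hx, hα']
      have hw' : w = s + u - t := by linarith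
      rw [hw']
      module
    set μ := (u * β - t) / w with hμ
    have e2 : C.x k = (1 - μ) • C.a i + μ • C.a l := by
      have : C.x k = w⁻¹ • (w • C.x k) := by rw [smul_smul, inv_mul_cancel₀ hw.ne', one_smul]
      rw [this, e1, smul_add, smul_smul, smul_smul]
      congr 2
      · rw [hμ]; field_simp
      · rw [hμ]; field_simp
    have hlt : μ < β := by
      rw [hμ, div_lt_iff₀ hw]
      have hb1 : β < 1 := by linarith
      nlinarith
    rcases lt_trichotomy μ 0 with h | h | h
    · -- `a_i` strictly between `x_k` and `a_l`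
      refine C.a_notMem hil.symm (C.hx k) (q := C.x k) (l := i) (i := l) ?_
      have h1 : 0 < 1 - μ := by linarith
      refine ⟨(-μ) / (1 - μ), 1 / (1 - μ), by apply div_pos <;> linarith, by positivity, by
        field_simp; ring, ?_⟩
      rw [e2]
      rw [smul_add, smul_smul, smul_smul]
      have h2 : 1 / (1 - μ) * (1 - μ) = 1 := by field_simp
      rw [h2, one_smul, add_comm (C.a i), ← add_assoc, ← add_smul]
      have h3 : -μ / (1 - μ) + 1 / (1 - μ) * μ = 0 := by field_simp; ring
      rw [h3, zero_smul, zero_add]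
    · rw [h] at e2
      simp at e2
      exact hik e2.symm
    · -- `x_k` strictly between `x_j` and `a_i`
      refine C.x_notMem hjk (C.ha i) ?_
      refine ⟨μ / β, 1 - μ / β, by positivity, by
        rw [sub_pos, div_lt_one hβ]; exact hlt, by ring, ?_⟩
      rw [e2, ← hx, hα', smul_add, smul_smul, smul_smul]
      have h3 : μ / β * β = μ := by field_simp
      rw [h3, add_right_comm, ← add_smul]
      congr 2
      have : μ / β * (1 - β) = μ / β - μ := by field_simp
      rw [this]; ring
  · refine affInd_of (C.a_inj hil) hlj hij ?_ ?_ hm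
    · exact C.a_notMem hil.symm (C.hx j)
    · exact C.a_notMem hil (C.hx j)

/-- **Crossing lemma for configurations.** -/
theorem cross (hne : (interior K).Nonempty) (i j : Fin 3 → ι)
    (hj : Function.Injective j) (hi : Function.Injective i) (hij : ∀ u w, i u ≠ j w)
    (hco : ∀ u w, C.a (i u) ≠ C.x (j w)) :
    ∃ u v w z : Fin 3, u ≠ v ∧ w ≠ z ∧ ∃ s : Sup K, s.on (C.a (i u)) ∧ s.on (C.a (i v)) ∧
      s.on (C.x (j w)) ∧ s.on (C.x (j z)) ∧
      AffineIndependent ℝ ![C.a (i u), C.a (i v), C.x (j w)] ∧
      AffineIndependent ℝ ![C.a (i u), C.a (i v), C.x (j z)] := by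
  -- an interior point off the plane of the three `x`'s
  have hai : AffineIndependent ℝ (fun w : Fin 3 => C.x (j w)) := by
    have h := C.x_affInd (i := j 0) (j := j 1) (k := j 2) (fun h => by simpa using hj h)
      (fun h => by simpa using hj h) (fun h => by simpa using hj h)
    convert h using 1
    ext w : 1
    fin_cases w <;> rfl
  obtain ⟨o, ho, hos⟩ : ∃ o ∈ interior K, o ∉ affineSpan ℝ (Set.range fun w : Fin 3 => C.x (j w)) := by
    by_contra hcon
    push Not at hcon
    have h1 : affineSpan ℝ (interior K) ≤ affineSpan ℝ (Set.range fun w : Fin 3 => C.x (j w)) :=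
      affineSpan_le.2 hcon
    rw [isOpen_interior.affineSpan_eq_top hne, top_le_iff] at h1
    have h2 := hai.affineSpan_eq_top_iff_card_eq_finrank_add_one.1 h1
    simp at h2
  have hlin : LinearIndependent ℝ (fun w : Fin 3 => C.x (j w) - o) := by
    let p : Option (Fin 3) → E3 := fun w => w.elim o (fun w => C.x (j w))
    have hp : AffineIndependent ℝ p := by
      refine AffineIndependent.affineIndependent_of_notMem_span (i := none) ?_ ?_
      · let e : {y : Option (Fin 3) // y ≠ none} ↪ Fin 3 :=
          ⟨fun y => y.1.get (Option.isSome_iff_ne_none.2 y.2), by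
            rintro ⟨y, hy⟩ ⟨z, hz⟩ h
            rcases y with _ | y
            · exact absurd rfl hy
            · rcases z with _ | z
              · exact absurd rfl hz
              · simp at h
                simp [h]⟩
        have h1 := hai.comp_embedding e
        have h2 : (fun y : {y : Option (Fin 3) // y ≠ none} => p y) =
            (fun w : Fin 3 => C.x (j w)) ∘ e := by
          funext y
          obtain ⟨y, hy⟩ := y
          rcases y with _ | y
          · exact absurd rfl hy
          · rfl
        rw [h2]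
        exact h1
      · have : p '' {x | x ≠ none} = Set.range fun w : Fin 3 => C.x (j w) := by
          ext v
          constructor
          · rintro ⟨y, hy, rfl⟩
            rcases y with _ | y
            · exact absurd rfl hy
            · exact ⟨y, rfl⟩
          · rintro ⟨y, rfl⟩
            exact ⟨some y, by simp, rfl⟩
        rw [this]
        exact hos
    rw [affineIndependent_iff_linearIndependent_vsub ℝ _ (none : Option (Fin 3))] at hp
    let g : Fin 3 → {y : Option (Fin 3) // y ≠ none} := fun w => ⟨some w, by simp⟩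
    have hg : Function.Injective g := by
      intro a b h
      simpa [g] using h
    have := hp.comp g hg
    exact this
  obtain ⟨u, v, w, z, huv, hwz, s, t, a, b, hs, ht, ha, hb, hst, he⟩ :=
    crossing (by simp) (fun u => C.a (i u) - o) (fun w => C.x (j w) - o) hlin
  -- `s P_u + a Q_w = t P_v + b Q_z`
  obtain ⟨F, hF1, hF2⟩ := C.rel (i u) (j w) (hij u w)
  obtain ⟨G, hG1, hG2⟩ := C.rel (i v) (j z) (hij v z)
  have hFo := F.lt o ho
  have hGo := G.lt o ho
  have hFv := F.le _ (C.ha (i v))
  have hFz := F.le _ (C.hx (j z))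
  have hGu := G.le _ (C.ha (i u))
  have hGw := G.le _ (C.hx (j w))
  have hiuv : i u ≠ i v := fun h => huv (hi h)
  have hjwz : j w ≠ j z := fun h => hwz (hj h)
  have eF := congrArg F.f he
  have eG := congrArg G.f he
  simp only [map_add, map_smul, map_sub, smul_eq_mul] at eF eG
  unfold Sup.on at hF1 hF2 hG1 hG2
  rw [hF1, hF2] at eF
  rw [hG1, hG2] at eG
  have hle1 : s + a ≤ t + b := by
    have : (s + a) * (F.c - F.f o) ≤ (t + b) * (F.c - F.f o) := by nlinarith
    exact le_of_mul_le_mul_right this (by linarith)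
  have hle2 : t + b ≤ s + a := by
    have : (t + b) * (G.c - G.f o) ≤ (s + a) * (G.c - G.f o) := by nlinarith
    exact le_of_mul_le_mul_right this (by linarith)
  have hsum : s + a = t + b := le_antisymm hle1 hle2
  have he' : s • C.a (i u) + a • C.x (j w) = t • C.a (i v) + b • C.x (j z) := by
    have h1 : s • (C.a (i u) - o) + a • (C.x (j w) - o) =
        s • C.a (i u) + a • C.x (j w) - (s + a) • o := by module
    have h2 : t • (C.a (i v) - o) + b • (C.x (j z) - o) =
        t • C.a (i v) + b • C.x (j z) - (t + b) • o := by module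
    rw [h1, h2, hsum] at he
    exact sub_left_injective he
  have hpos : 0 < s + a := by
    rcases hs.eq_or_lt with h | h
    · have : t = 1 := by linarith
      linarith
    · linarith
  -- general fact: a strict convex combination
  have key : ∀ (p q y : E3) (α β σ : ℝ), 0 < α → 0 < β → α + β = σ →
      σ • y = α • p + β • q → y ∈ openSegment ℝ p q := by
    intro p q y α β σ hα hβ hσ h
    have hσ' : 0 < σ := by linarith
    refine ⟨α / σ, β / σ, by positivity, by positivity, by rw [← add_div, hσ, div_self hσ'.ne'], ?_⟩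
    have : y = σ⁻¹ • (σ • y) := by rw [smul_smul, inv_mul_cancel₀ hσ'.ne', one_smul]
    rw [this, h, smul_add, smul_smul, smul_smul]
    congr 2 <;> ring
  have smul_cancel : ∀ (y y' : E3) (σ : ℝ), 0 < σ → σ • y = σ • y' → y = y' := by
    intro y y' σ hσ h
    exact smul_right_injective E3 hσ.ne' h
  -- all four coefficients are positive
  have ht0 : 0 < t := by
    rcases ht.eq_or_lt with h | h
    · exfalso
      subst h
      have hs1 : 0 < s := by linarith
      rw [zero_smul, zero_add] at he'
      rcases ha.eq_or_lt with h' | h'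
      · subst h'
        rw [zero_smul, add_zero] at he'
        have : b = s := by linarith
        rw [this] at he'
        exact hco u z (smul_cancel _ _ _ hs1 he')
      · refine C.x_notMem hjwz (C.ha (i u)) (key _ _ _ a s b h' hs1 (by linarith) ?_)
        rw [← he']; abel
    · exact h
  have hb0 : 0 < b := by
    rcases hb.eq_or_lt with h | h
    · exfalso
      subst h
      rw [zero_smul, add_zero] at he'
      rcases hs.eq_or_lt with h' | h'
      · subst h'
        rw [zero_smul, zero_add] at he'
        have : a = t := by linarith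
        rw [this] at he'
        exact hco v w (smul_cancel _ _ _ ht0 he').symm
      · rcases ha.eq_or_lt with h'' | h''
        · subst h''
          rw [zero_smul, add_zero] at he'
          have : s = t := by linarith
          rw [this] at he'
          exact C.a_inj hiuv (smul_cancel _ _ _ ht0 he')
        · exact C.a_notMem hiuv (C.hx (j w)) (key _ _ _ s a t h' h'' (by linarith) he'.symm)
    · exact h
  have hs0 : 0 < s := by
    rcases hs.eq_or_lt with h | h
    · exfalso
      subst h
      rw [zero_smul, zero_add] at he'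
      have ha0 : 0 < a := by linarith
      refine C.x_notMem hjwz.symm (C.ha (i v)) (key _ _ _ b t a hb0 ht0 (by linarith) ?_)
      rw [he']; abel
    · exact h
  have ha0 : 0 < a := by
    rcases ha.eq_or_lt with h | h
    · exfalso
      subst h
      rw [zero_smul, add_zero] at he'
      exact C.a_notMem hiuv.symm (C.hx (j z)) (key _ _ _ t b s ht0 hb0 (by linarith) he')
    · exact h
  -- the supporting plane `F` contains all four points
  have e0 : t * (F.c - F.f (C.a (i v))) + b * (F.c - F.f (C.x (j z))) = 0 := by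
    have : (s + a) * (F.c - F.f o) = (t + b) * (F.c - F.f o) := by rw [hsum]
    nlinarith
  have e1 : 0 ≤ t * (F.c - F.f (C.a (i v))) := mul_nonneg ht (by linarith)
  have e2 : 0 ≤ b * (F.c - F.f (C.x (j z))) := mul_nonneg hb (by linarith)
  have e3 : t * (F.c - F.f (C.a (i v))) = 0 := by linarith
  have e4 : b * (F.c - F.f (C.x (j z))) = 0 := by linarith
  have e5 : F.f (C.a (i v)) = F.c := by
    rcases mul_eq_zero.1 e3 with h | h <;> linarith
  have e6 : F.f (C.x (j z)) = F.c := by
    rcases mul_eq_zero.1 e4 with h | h <;> linarith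
  refine ⟨u, v, w, z, huv, hwz, F, hF1, e5, hF2, e6, ?_, ?_⟩
  · exact C.affInd_cross hiuv hjwz (hco u w) (hco v w) (hco u z) hs0 ht0 hb0 hsum he'
  · have h := C.affInd_cross hiuv.symm hjwz.symm (hco v z) (hco u z) (hco v w) ht0 hs0 ha0
      hsum.symm he'.symm
    rw [affineIndependent_iff_not_collinear_set] at h ⊢
    rwa [Set.insert_comm]

end Conf

end Run7.h993
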