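import Mathlib

set_option autoImplicit false

/-!
# A linear crossing lemma for `K_{3,3}`

For three vectors `P i` and three linearly independent vectors `Q j` of a real vector space of
dimension three, two disjoint cones `cone (P i, Q j)` and `cone (P l, Q k)` meet.
-/

namespace Run7.h993

/-- the median of three real numbers -/
def med (x y z : ℝ) : ℝ := max (min x y) (min (max x y) z)

theorem med_neg (x y z : ℝ) : med (-x) (-y) (-z) = - med x y z := by
  unfold med
  rcases le_total x y with h1 | h1 <;> rcases le_total y z with h2 | h2 <;>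
    rcases le_total x z with h3 | h3 <;>
    simp only [min_def, max_def] <;> split_ifs <;> linarith

theorem med_cont : Continuous (fun p : ℝ × ℝ × ℝ => med p.1 p.2.1 p.2.2) := by
  unfold med
  fun_prop

/-- if the median of `c 0, c 1, c 2` is `0`, then some entry `c n` is zero and the two others
have opposite (weak) signs. -/
theorem med_zero (c : Fin 3 → ℝ) (h : med (c 0) (c 1) (c 2) = 0) :
    ∃ j k n : Fin 3, j ≠ k ∧ n ≠ j ∧ n ≠ k ∧ 0 ≤ c j ∧ c k ≤ 0 ∧ c n = 0 := by
  have h01 : (0 : Fin 3) ≠ 1 := by decide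
  have h02 : (0 : Fin 3) ≠ 2 := by decide
  have h12 : (1 : Fin 3) ≠ 2 := by decide
  unfold med at h
  rcases le_total (c 0) (c 1) with h1 | h1
  · rw [min_eq_left h1, max_eq_right h1] at h
    rcases le_total (c 1) (c 2) with h2 | h2
    · rw [min_eq_left h2, max_eq_right h1] at h
      exact ⟨2, 0, 1, h02.symm, h12, h01.symm, by linarith, by linarith, h⟩
    · rw [min_eq_right h2] at h
      rcases le_total (c 0) (c 2) with h3 | h3
      · rw [max_eq_right h3] at h
        exact ⟨1, 0, 2, h01.symm, h12.symm, h02.symm, by linarith, by linarith, h⟩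
      · rw [max_eq_left h3] at h
        exact ⟨1, 2, 0, h12, h01, h02, by linarith, by linarith, h⟩
  · rw [min_eq_right h1, max_eq_left h1] at h
    rcases le_total (c 0) (c 2) with h2 | h2
    · rw [min_eq_left h2, max_eq_right h1] at h
      exact ⟨2, 1, 0, h12.symm, h02, h01, by linarith, by linarith, h⟩
    · rw [min_eq_right h2] at h
      rcases le_total (c 1) (c 2) with h3 | h3
      · rw [max_eq_right h3] at h
        exact ⟨0, 1, 2, h01, h02.symm, h12.symm, by linarith, by linarith, h⟩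
      · rw [max_eq_left h3] at h
        exact ⟨0, 2, 1, h02, h01.symm, h12, by linarith, by linarith, h⟩

/-- among three real numbers two have the same weak sign -/
theorem same_sign (m : Fin 3 → ℝ) : ∃ i l : Fin 3, i ≠ l ∧ 0 ≤ m i * m l := by
  have h01 : (0 : Fin 3) ≠ 1 := by decide
  have h02 : (0 : Fin 3) ≠ 2 := by decide
  have h12 : (1 : Fin 3) ≠ 2 := by decide
  rcases le_total 0 (m 0) with h0 | h0 <;> rcases le_total 0 (m 1) with h1 | h1 <;>
    rcases le_total 0 (m 2) with h2 | h2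
  · exact ⟨0, 1, h01, mul_nonneg h0 h1⟩
  · exact ⟨0, 1, h01, mul_nonneg h0 h1⟩
  · exact ⟨0, 2, h02, mul_nonneg h0 h2⟩
  · exact ⟨1, 2, h12, mul_nonneg_of_nonpos_of_nonpos h1 h2⟩
  · exact ⟨1, 2, h12, mul_nonneg h1 h2⟩
  · exact ⟨0, 2, h02, mul_nonneg_of_nonpos_of_nonpos h0 h2⟩
  · exact ⟨0, 1, h01, mul_nonneg_of_nonpos_of_nonpos h0 h1⟩
  · exact ⟨0, 1, h01, mul_nonneg_of_nonpos_of_nonpos h0 h1⟩

theorem univ3 : ∀ n j k : Fin 3, j ≠ k → n ≠ j → n ≠ k →
    (Finset.univ : Finset (Fin 3)) = {n, j, k} := by decide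

/-- **Crossing lemma.** -/
theorem crossing {V : Type} [NormedAddCommGroup V] [NormedSpace ℝ V] [FiniteDimensional ℝ V]
    (hV : Module.finrank ℝ V = 3) (P Q : Fin 3 → V) (hQ : LinearIndependent ℝ Q) :
    ∃ i l j k : Fin 3, i ≠ l ∧ j ≠ k ∧ ∃ s t u w : ℝ, 0 ≤ s ∧ 0 ≤ t ∧ 0 ≤ u ∧ 0 ≤ w ∧
      s + t = 1 ∧ s • P i + u • Q j = t • P l + w • Q k := by
  classical
  let b : Module.Basis (Fin 3) ℝ V := basisOfLinearIndependentOfCardEqFinrank hQ (by simp [hV])
  have hb : ∀ j, b j = Q j := fun j => by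
    simp [b, coe_basisOfLinearIndependentOfCardEqFinrank]
  let m : V → ℝ := fun v => med (b.repr v 0) (b.repr v 1) (b.repr v 2)
  have hmc : Continuous m := by
    have hc : ∀ j, Continuous (fun v : V => b.repr v j) := fun j =>
      (LinearMap.continuous_of_finiteDimensional (b.coord j))
    exact med_cont.comp ((hc 0).prodMk ((hc 1).prodMk (hc 2)))
  have hmneg : ∀ v, m (-v) = - m v := by
    intro v
    simp only [m, map_neg, Finsupp.neg_apply]
    exact med_neg _ _ _
  obtain ⟨i, l, hil, hs⟩ := same_sign (fun i => m (P i))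
  let γ : ℝ → V := fun τ => -((1 - τ) • P i) + τ • P l
  have hγ : Continuous γ := by fun_prop
  have hg : Continuous (fun τ => m (γ τ)) := hmc.comp hγ
  have h0 : m (γ 0) = - m (P i) := by simp [γ, hmneg]
  have h1 : m (γ 1) = m (P l) := by simp [γ]
  obtain ⟨τ, hτ, hz⟩ : ∃ τ ∈ Set.Icc (0 : ℝ) 1, m (γ τ) = 0 := by
    have hs' : 0 ≤ m (P i) * m (P l) := hs
    rcases le_total 0 (m (P i)) with hi | hi
    · by_cases hl : 0 ≤ m (P l)
      · have := intermediate_value_Icc (zero_le_one (α := ℝ)) hg.continuousOn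
        have h := this (show (0 : ℝ) ∈ Set.Icc (m (γ 0)) (m (γ 1)) by
          rw [h0, h1]; constructor <;> linarith)
        obtain ⟨τ, hτ, h⟩ := h
        exact ⟨τ, hτ, h⟩
      · have : m (P i) = 0 := by
          push Not at hl
          by_contra hne
          have : 0 < m (P i) := lt_of_le_of_ne hi (Ne.symm hne)
          nlinarith
        exact ⟨0, ⟨le_rfl, zero_le_one⟩, by rw [h0, this, neg_zero]⟩
    · by_cases hl : m (P l) ≤ 0
      · have := intermediate_value_Icc' (zero_le_one (α := ℝ)) hg.continuousOn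
        have h := this (show (0 : ℝ) ∈ Set.Icc (m (γ 1)) (m (γ 0)) by
          rw [h0, h1]; constructor <;> linarith)
        obtain ⟨τ, hτ, h⟩ := h
        exact ⟨τ, hτ, h⟩
      · have : m (P i) = 0 := by
          push Not at hl
          by_contra hne
          have : m (P i) < 0 := lt_of_le_of_ne hi hne
          nlinarith
        exact ⟨0, ⟨le_rfl, zero_le_one⟩, by rw [h0, this, neg_zero]⟩
  obtain ⟨j, k, n, hjk, hnj, hnk, hj, hk, hn⟩ := med_zero (fun j => b.repr (γ τ) j) hz
  refine ⟨i, l, j, k, hil, hjk, 1 - τ, τ, b.repr (γ τ) j, - b.repr (γ τ) k, by linarith [hτ.2],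
    hτ.1, hj, by linarith, by ring, ?_⟩
  have hrep : γ τ = b.repr (γ τ) j • Q j + b.repr (γ τ) k • Q k := by
    conv_lhs => rw [← b.sum_repr (γ τ)]
    simp only [hb]
    rw [univ3 n j k hjk hnj hnk, Finset.sum_insert (by simp [hnj, hnk]), Finset.sum_insert (by simp [hjk]),
      Finset.sum_singleton]
    have hn' : b.repr (γ τ) n = 0 := hn
    rw [hn', zero_smul, zero_add]
  have e : -((1 - τ) • P i) + τ • P l = b.repr (γ τ) j • Q j + b.repr (γ τ) k • Q k := hrep
  have e2 : τ • P l = (1 - τ) • P i + (b.repr (γ τ) j • Q j + b.repr (γ τ) k • Q k) := by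
    rw [← e]; abel
  rw [e2, neg_smul]
  abel

end Run7.h993
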