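import Pool.Agent.Run7.h993.Conf

set_option autoImplicit false

/-!
# A configuration on a convex body of `ℝ³` has boundedly many points
-/

namespace Run7.h993

namespace Conf

variable {K : Set E3} {ι : Type} (C : Conf K ι)

/-- two `x`'s are linked by a plane through two of the `a`'s of the triple `I` -/
def Link (I : Fin 3 → ι) (u v : Fin 3) (j k : ι) : Prop :=
  ∃ F : Sup K, F.on (C.a (I u)) ∧ F.on (C.a (I v)) ∧ F.on (C.x j) ∧ F.on (C.x k) ∧
    AffineIndependent ℝ ![C.a (I u), C.a (I v), C.x j] ∧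
    AffineIndependent ℝ ![C.a (I u), C.a (I v), C.x k]

theorem Link.symm {I : Fin 3 → ι} {u v : Fin 3} {j k : ι} (h : C.Link I u v j k) :
    C.Link I u v k j := by
  obtain ⟨F, h1, h2, h3, h4, h5, h6⟩ := h
  exact ⟨F, h1, h2, h4, h3, h6, h5⟩

/-- **A large configuration has a supporting plane with many `x`'s and an `a`.** -/
theorem bigFace [DecidableEq ι] (hne : (interior K).Nonempty) (r : ℕ)
    (S : Finset ι) (hS : 12 * r + 9 ≤ S.card) :
    ∃ F : Sup K, ∃ i ∈ S, ∃ T : Finset ι, T ⊆ S ∧ r < T.card ∧ F.on (C.a i) ∧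
      ∀ j ∈ T, F.on (C.x j) := by
  classical
  -- a triple of indices
  obtain ⟨I, hI, hIS⟩ : ∃ I : Fin 3 → ι, Function.Injective I ∧ ∀ u, I u ∈ S := by
    obtain ⟨S', hS', hc⟩ := Finset.exists_subset_card_eq (show 3 ≤ S.card by omega)
    let e := (S'.equivFinOfCardEq hc).symm
    exact ⟨fun u => (e u : ι), fun a b h => e.injective (Subtype.ext h), fun u => hS' (e u).2⟩
  set J : Finset ι := S.filter (fun k => (∀ u, I u ≠ k) ∧ ∀ u, C.a (I u) ≠ C.x k) with hJ
  have hJc : 12 * r + 3 ≤ J.card := by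
    have h1 : S ⊆ J ∪ (Finset.univ.image I ∪ S.filter (fun k => ∃ u, C.a (I u) = C.x k)) := by
      intro k hk
      by_cases h1 : ∀ u, I u ≠ k
      · by_cases h2 : ∀ u, C.a (I u) ≠ C.x k
        · exact Finset.mem_union_left _ (Finset.mem_filter.2 ⟨hk, h1, h2⟩)
        · push Not at h2
          exact Finset.mem_union_right _ (Finset.mem_union_right _ (Finset.mem_filter.2 ⟨hk, h2⟩))
      · push Not at h1
        obtain ⟨u, hu⟩ := h1
        exact Finset.mem_union_right _ (Finset.mem_union_left _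
          (Finset.mem_image.2 ⟨u, Finset.mem_univ _, hu⟩))
    have h2 : (Finset.univ.image I).card ≤ 3 := by
      simpa using Finset.card_image_le (s := (Finset.univ : Finset (Fin 3))) (f := I)
    have h3 : (S.filter (fun k => ∃ u, C.a (I u) = C.x k)).card ≤ 3 := by
      have : ((S.filter (fun k => ∃ u, C.a (I u) = C.x k)).image C.x).card ≤
          ((Finset.univ : Finset (Fin 3)).image (fun u => C.a (I u))).card := by
        apply Finset.card_le_card
        intro y hy
        obtain ⟨k, hk, rfl⟩ := Finset.mem_image.1 hy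
        obtain ⟨u, hu⟩ := (Finset.mem_filter.1 hk).2
        exact Finset.mem_image.2 ⟨u, Finset.mem_univ _, hu⟩
      rw [Finset.card_image_of_injOn] at this
      · refine this.trans ?_
        simpa using Finset.card_image_le (s := (Finset.univ : Finset (Fin 3)))
          (f := fun u => C.a (I u))
      · intro j _ k _ h
        by_contra hne
        exact C.x_inj hne h
    have h4 := Finset.card_le_card h1
    have h5 := Finset.card_union_le J
      (Finset.univ.image I ∪ S.filter (fun k => ∃ u, C.a (I u) = C.x k))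
    have h6 := Finset.card_union_le (Finset.univ.image I)
      (S.filter (fun k => ∃ u, C.a (I u) = C.x k))
    omega
  let N : ι → Finset ι := fun j => J.filter (fun k => ∃ u v, u ≠ v ∧ C.Link I u v j k)
  have hN : ∃ j ∈ J, 6 * r < (N j).card := by
    by_contra hcon
    push Not at hcon
    obtain ⟨j1, hj1⟩ : J.Nonempty := Finset.card_pos.1 (by omega)
    have c1 := hcon j1 hj1
    obtain ⟨j2, hj2⟩ : (J \ ({j1} ∪ N j1)).Nonempty := by
      apply Finset.card_pos.1
      have h1 := Finset.card_union_le {j1} (N j1)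
      have h2 := Finset.le_card_sdiff ({j1} ∪ N j1) J
      rw [Finset.card_singleton] at h1
      omega
    rw [Finset.mem_sdiff, Finset.mem_union, Finset.mem_singleton, not_or] at hj2
    obtain ⟨hj2, hj21, hj2N⟩ := hj2
    have c2 := hcon j2 hj2
    obtain ⟨j3, hj3⟩ : (J \ ({j1, j2} ∪ (N j1 ∪ N j2))).Nonempty := by
      apply Finset.card_pos.1
      have h1 := Finset.card_union_le {j1, j2} (N j1 ∪ N j2)
      have h1' := Finset.card_union_le (N j1) (N j2)
      have h2 := Finset.le_card_sdiff ({j1, j2} ∪ (N j1 ∪ N j2)) J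
      have h3 : ({j1, j2} : Finset ι).card ≤ 2 := Finset.card_le_two
      omega
    simp only [Finset.mem_sdiff, Finset.mem_union, Finset.mem_insert, Finset.mem_singleton,
      not_or] at hj3
    obtain ⟨hj3, ⟨hj31, hj32⟩, hj3N1, hj3N2⟩ := hj3
    have hlink : ∀ {j k : ι}, j ∈ J → k ∈ J → k ∉ N j → ∀ u v, u ≠ v → ¬ C.Link I u v j k := by
      intro j k _ hk hn u v huv hL
      exact hn (Finset.mem_filter.2 ⟨hk, u, v, huv, hL⟩)
    let jj : Fin 3 → ι := ![j1, j2, j3]
    have hjj : ∀ w, jj w ∈ J := by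
      intro w
      fin_cases w
      · exact hj1
      · exact hj2
      · exact hj3
    have hjinj : Function.Injective jj := by
      intro a b h
      fin_cases a <;> fin_cases b <;> simp [jj] at h ⊢
      · exact hj21 h.symm
      · exact hj31 h.symm
      · exact hj21 h
      · exact hj32 h.symm
      · exact hj31 h
      · exact hj32 h
    obtain ⟨u, v, w, z, huv, hwz, F, h1, h2, h3, h4, h5, h6⟩ := C.cross hne I jj hjinj hI
      (fun u w => (Finset.mem_filter.1 (hjj w)).2.1 u)
      (fun u w => (Finset.mem_filter.1 (hjj w)).2.2 u)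
    have hL : C.Link I u v (jj w) (jj z) := ⟨F, h1, h2, h3, h4, h5, h6⟩
    have n12 := hlink hj1 hj2 hj2N u v huv
    have n13 := hlink hj1 hj3 hj3N1 u v huv
    have n23 := hlink hj2 hj3 hj3N2 u v huv
    fin_cases w <;> fin_cases z
    · exact hwz rfl
    · exact n12 hL
    · exact n13 hL
    · exact n12 hL.symm
    · exact hwz rfl
    · exact n23 hL
    · exact n13 hL.symm
    · exact n23 hL.symm
    · exact hwz rfl
  obtain ⟨j, hj, hNj⟩ := hN
  -- pigeonhole over the pairs `(u, v)`
  obtain ⟨u, v, huv, hcard⟩ : ∃ u v : Fin 3, u ≠ v ∧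
      r < (J.filter (fun k => C.Link I u v j k)).card := by
    by_contra hcon
    push Not at hcon
    have h1 : N j ⊆ (Finset.univ : Finset (Fin 3)).offDiag.biUnion
        (fun p => J.filter (fun k => C.Link I p.1 p.2 j k)) := by
      intro k hk
      obtain ⟨hk1, u, v, huv, hL⟩ := Finset.mem_filter.1 hk
      refine Finset.mem_biUnion.2 ⟨(u, v), ?_, Finset.mem_filter.2 ⟨hk1, hL⟩⟩
      simp [Finset.mem_offDiag, huv]
    have h2 := Finset.card_le_card h1
    have h3 := Finset.card_biUnion_le (s := (Finset.univ : Finset (Fin 3)).offDiag)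
      (t := fun p => J.filter (fun k => C.Link I p.1 p.2 j k))
    have h4 : ∑ p ∈ (Finset.univ : Finset (Fin 3)).offDiag,
        (J.filter (fun k => C.Link I p.1 p.2 j k)).card ≤
        ∑ p ∈ (Finset.univ : Finset (Fin 3)).offDiag, r := by
      apply Finset.sum_le_sum
      intro p hp
      rw [Finset.mem_offDiag] at hp
      exact hcon p.1 p.2 hp.2.2
    rw [Finset.sum_const] at h4
    have h5 : (Finset.univ : Finset (Fin 3)).offDiag.card = 6 := by decide
    rw [h5, smul_eq_mul] at h4
    omega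
  obtain ⟨k0, hk0⟩ : (J.filter (fun k => C.Link I u v j k)).Nonempty :=
    Finset.card_pos.1 (by omega)
  obtain ⟨F, h1, h2, h3, h4, h5, h6⟩ := (Finset.mem_filter.1 hk0).2
  refine ⟨F, I u, hIS u, J.filter (fun k => C.Link I u v j k), ?_, hcard, h1, ?_⟩
  · exact (Finset.filter_subset _ _).trans (Finset.filter_subset _ _)
  · intro k hk
    obtain ⟨G, g1, g2, g3, g4, g5, g6⟩ := (Finset.mem_filter.1 hk).2
    exact Sup.unique hne G F h5 g1 g2 g3 h1 h2 h3 g4

include C in
/-- **Configurations have at most `392` points.** -/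
theorem card_le [DecidableEq ι] (hne : (interior K).Nonempty) (S : Finset ι) :
    S.card ≤ 392 := by
  by_contra hcon
  push Not at hcon
  obtain ⟨F, -, -, T, hTS, hT, -, hF⟩ := C.bigFace hne 32 S (by omega)
  obtain ⟨G, i, hi, T', hT'T, hT', hGi, hG⟩ := C.bigFace hne 2 T (by omega)
  obtain ⟨j1, j2, j3, h1, h2, h3, h12, h13, h23⟩ := Finset.two_lt_card_iff.1 hT'
  have hu := Sup.unique hne G F (C.x_affInd h12 h23 h13) (hG _ h1) (hG _ h2) (hG _ h3)
    (hF _ (hT'T h1)) (hF _ (hT'T h2)) (hF _ (hT'T h3)) hGi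
  exact C.nrel i F hu (hF i hi)

end Conf

/-- **Primitive inner illuminating sets of three-dimensional convex bodies have at most `392`
points.** -/
theorem primitive_card_le (K : Set E3) (hK : IsCompact K) (hc : Convex ℝ K)
    (hne : (interior K).Nonempty) (A : Set E3)
    (hA : A ⊆ frontier K ∧ ∀ x ∈ frontier K, ∃ a ∈ A, ∃ ε : ℝ, 0 < ε ∧ ε < 1 ∧
      (1 - ε) • x + ε • a ∈ interior K)
    (hprim : ∀ B : Set E3, B ⊆ A → B ≠ A → ¬ (B ⊆ frontier K ∧ ∀ x ∈ frontier K, ∃ b ∈ B,
      ∃ ε : ℝ, 0 < ε ∧ ε < 1 ∧ (1 - ε) • x + ε • b ∈ interior K)) :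
    A.encard ≤ (392 : ℕ) := by
  classical
  by_contra hcon
  push Not at hcon
  have h393 : ((393 : ℕ) : ℕ∞) ≤ A.encard := by
    have := Order.add_one_le_of_lt hcon
    exact_mod_cast this
  obtain ⟨A', hA', hcard⟩ := Set.exists_subset_encard_eq h393
  have hfin : A'.Finite := Set.finite_of_encard_eq_coe hcard
  have hcard' : hfin.toFinset.card = 393 := by
    rw [hfin.encard_eq_coe_toFinset_card] at hcard
    exact_mod_cast hcard
  -- witnesses
  have hsub : frontier K ⊆ K := hK.isClosed.frontier_subset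
  have hw : ∀ a ∈ A, ∃ x ∈ frontier K, (∃ ε : ℝ, 0 < ε ∧ ε < 1 ∧
      (1 - ε) • x + ε • a ∈ interior K) ∧
      ∀ b ∈ A, b ≠ a → ∀ ε : ℝ, 0 < ε → ε < 1 → (1 - ε) • x + ε • b ∉ interior K := by
    intro a ha
    have h1 := hprim (A \ {a}) Set.sdiff_subset (fun h => by
      rw [← h] at ha
      exact ha.2 rfl)
    have h2 : ∃ x ∈ frontier K, ∀ b ∈ A \ {a}, ∀ ε : ℝ, 0 < ε → ε < 1 →
        (1 - ε) • x + ε • b ∉ interior K := by
      by_contra h
      push Not at h
      exact h1 ⟨Set.sdiff_subset.trans hA.1, h⟩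
    obtain ⟨x, hx, h2⟩ := h2
    refine ⟨x, hx, ?_, fun b hb hba => h2 b ⟨hb, hba⟩⟩
    obtain ⟨a', ha', ε, hε, hε1, hi⟩ := hA.2 x hx
    by_cases h : a' = a
    · rw [h] at hi
      exact ⟨ε, hε, hε1, hi⟩
    · exact absurd hi (h2 a' ⟨ha', h⟩ ε hε hε1)
  choose! X hX1 hX2 hX3 using hw
  let C : Conf K {a // a ∈ hfin.toFinset} :=
    { a := fun i => i.1
      x := fun i => X i.1
      ha := fun i => hsub (hA.1 (hA' (hfin.mem_toFinset.1 i.2)))
      hx := fun i => hsub (hX1 _ (hA' (hfin.mem_toFinset.1 i.2)))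
      rel := by
        intro i j hij
        have hi : i.1 ∈ A := hA' (hfin.mem_toFinset.1 i.2)
        have hj : j.1 ∈ A := hA' (hfin.mem_toFinset.1 j.2)
        have h := hX3 j.1 hj i.1 hi (fun h => hij (Subtype.ext h)) (1 / 2) (by norm_num)
          (by norm_num)
        obtain ⟨s, hs1, hs2⟩ := exists_sup hc hK.isClosed hne (hsub (hX1 _ hj)) (hsub (hA.1 hi))
          (x := X j.1) (a := i.1) (by
            have e : (1 : ℝ) - 1 / 2 = 1 / 2 := by norm_num
            rwa [e] at h)
        exact ⟨s, hs2, hs1⟩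
      nrel := by
        intro i s hs1 hs2
        obtain ⟨ε, hε, hε1, hi⟩ := hX2 i.1 (hA' (hfin.mem_toFinset.1 i.2))
        have := s.lt _ hi
        unfold Sup.on at hs1 hs2
        simp only [map_add, map_smul, smul_eq_mul] at this
        rw [hs1, hs2] at this
        linarith }
  have := C.card_le hne Finset.univ
  rw [Finset.card_univ, Fintype.card_coe, hcard'] at this
  omega

end Run7.h993
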